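import Pool.Agent.Q280.MX.BdmA

/-!
# Project MX: the moments of the corank of a bordered symmetric matrix
-/

set_option autoImplicit false
set_option linter.unusedVariables false
set_option linter.unusedSectionVars false

namespace Q280.MXB

open Finset Module
open Q44.MX
open scoped Classical

section main

variable {σ : Type} [Fintype σ] (A : Sym2 σ → ZMod 2)

/-- the extensions of `A` -/
noncomputable def Fil {P : Type} [Fintype P] (f : σ → P) : Finset (Sym2 P → ZMod 2) :=
  univ.filter fun a => ∀ e, a (e.map f) = A e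

theorem mem_Fil {P : Type} [Fintype P] (f : σ → P) (a : Sym2 P → ZMod 2) :
    a ∈ Fil A f ↔ ∀ e, a (e.map f) = A e := by
  simp [Fil]

/-- the corank is invariant -/
theorem ck_map {P Q : Type} [Fintype P] [Fintype Q] (g : P ≃ Q) (a : Sym2 Q → ZMod 2) :
    ck (fun e => a (Sym2.map g e)) = ck a := by
  apply pow_inj
  rw [← card_Kf, ← card_Kf]
  have h : ∀ x : Q → ZMod 2, ∀ p, sm (fun e => a (Sym2.map g e)) (fun q => x (g q)) p = sm a x (g p) := by
    intro x p
    rw [sm_apply, sm_apply, ← Equiv.sum_comp g]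
    simp
  refine card_bij' (fun x _ => fun q => x (g.symm q)) (fun x _ => fun p => x (g p)) ?_ ?_ ?_ ?_
  · intro x hx
    simp only [Kf, mem_filter, mem_univ, true_and] at hx ⊢
    funext q
    have := h (fun q => x (g.symm q)) (g.symm q)
    simp only [Equiv.symm_apply_apply, Equiv.apply_symm_apply] at this
    rw [← this, hx]
    simp
  · intro x hx
    simp only [Kf, mem_filter, mem_univ, true_and] at hx ⊢
    funext p
    rw [h x p, hx]
    simp
  · intro x _
    simp
  · intro x _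
    simp

theorem sum_map {P Q : Type} [Fintype P] [Fintype Q] (g : P ≃ Q) (f : σ → P) (F : ℕ → ℝ) :
    ∑ a ∈ Fil A (g ∘ f), F (ck a) = ∑ a ∈ Fil A f, F (ck a) := by
  refine sum_bij' (fun a _ => fun e => a (Sym2.map g e)) (fun a _ => fun e => a (Sym2.map g.symm e)) ?_ ?_ ?_ ?_ ?_
  · intro a ha
    rw [mem_Fil] at ha ⊢
    intro e
    rw [← ha e, Sym2.map_map]
  · intro a ha
    rw [mem_Fil] at ha ⊢
    intro e
    rw [← ha e, Sym2.map_map]
    congr 2
    funext x
    simp
  · intro a _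
    funext e
    simp [Sym2.map_map]
  · intro a _
    funext e
    simp [Sym2.map_map]
  · intro a _
    rw [ck_map]

theorem sum_opt {P : Type} [Fintype P] (f : σ → P) (F : ℕ → ℝ) :
    ∑ a ∈ Fil A (some ∘ f), F (ck a) = ∑ a ∈ Fil A f, ∑ v : P → ZMod 2, ∑ d : ZMod 2, F (ck (bord a v d)) := by
  have h1 : ∑ a ∈ Fil A (some ∘ f), F (ck a) =
      ∑ a : Sym2 (Option P) → ZMod 2, if a ∈ Fil A (some ∘ f) then F (ck a) else 0 := by
    rw [← sum_filter]
    congr 1
    ext a
    simp
  have h2 : ∑ a ∈ Fil A f, ∑ v : P → ZMod 2, ∑ d : ZMod 2, F (ck (bord a v d)) =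
      ∑ a : Sym2 P → ZMod 2, ∑ v : P → ZMod 2, ∑ d : ZMod 2,
        if a ∈ Fil A f then F (ck (bord a v d)) else 0 := by
    have : Fil A f = univ.filter (fun a => a ∈ Fil A f) := by
      ext a
      simp
    conv_lhs => rw [this]
    rw [sum_filter]
    refine sum_congr rfl fun a _ => ?_
    by_cases h : a ∈ Fil A f <;> simp [h]
  rw [h1, h2, ← Equiv.sum_comp bordE, Fintype.sum_prod_type]
  refine sum_congr rfl fun a _ => ?_
  rw [Fintype.sum_prod_type]
  refine sum_congr rfl fun v _ => sum_congr rfl fun d _ => ?_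
  have h3 : (bordE (a, v, d) ∈ Fil A (some ∘ f)) ↔ a ∈ Fil A f := by
    rw [mem_Fil, mem_Fil]
    refine forall_congr' fun e => ?_
    induction e using Sym2.ind with
    | _ p q => exact Iff.rfl
  by_cases h : a ∈ Fil A f
  · rw [if_pos h, if_pos (h3.2 h)]
    rfl
  · rw [if_neg h, if_neg (fun h' => h (h3.1 h'))]

theorem card_sum {P : Type} [Fintype P] (f : σ → P) : ((Fil A f).card : ℝ) = ∑ a ∈ Fil A f, (fun _ => (1 : ℝ)) (ck a) := by
  simp

theorem card_opt {P : Type} [Fintype P] (f : σ → P) :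
    ((Fil A (some ∘ f)).card : ℝ) = 2 ^ (Fintype.card P + 1) * (Fil A f).card := by
  rw [card_sum, sum_opt A f (fun _ => (1 : ℝ))]
  simp only [sum_const, card_univ, ZMod.card, Fintype.card_fun, nsmul_eq_mul]
  push_cast
  ring

/-- the bound -/
theorem bound : ∀ (n : ℕ) (P : Type) [Fintype P] (f : σ → P), Function.Injective f →
    Fintype.card P = Fintype.card σ + n → ∀ s : ℕ,
    ∑ a ∈ Fil A f, (ut s (ck a) : ℝ) ≤ (Fil A f).card *
      (2 ^ (s * (s - 1) / 2) * ∏ i ∈ range s, (1 + 2 ^ i * (2 ^ ck A / 2 ^ n))) := by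
  intro n
  induction n with
  | zero =>
    intro P _ f hf hc s
    have hb : Function.Bijective f := by
      rw [Fintype.bijective_iff_injective_and_card]
      exact ⟨hf, by omega⟩
    have hg : f = (Equiv.ofBijective f hb) ∘ (id : σ → σ) := by
      funext x
      simp
    have h0 : Fil A (id : σ → σ) = {A} := by
      ext a
      have hid : Sym2.map (id : σ → σ) = id := Sym2.map_id
      rw [mem_Fil, mem_singleton, hid]
      constructor
      · intro h
        funext e
        exact h e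
      · rintro rfl e
        rfl
    rw [hg, sum_map A (Equiv.ofBijective f hb) id (fun c => (ut s c : ℝ)), card_sum,
      sum_map A (Equiv.ofBijective f hb) id (fun _ => (1 : ℝ)), h0, sum_singleton, sum_singleton, one_mul]
    have h1 : (ut s (ck A) : ℝ) ≤ ∏ i ∈ range s, ((2 : ℝ) ^ i * (1 + 2 ^ i * (2 ^ ck A / 2 ^ 0))) := by
      unfold ut
      rw [Nat.cast_prod]
      refine prod_le_prod (fun i _ => by positivity) fun i _ => ?_
      have h2 : ((2 ^ ck A - 2 ^ i : ℕ) : ℝ) ≤ 2 ^ ck A := by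
        exact_mod_cast Nat.sub_le _ _
      refine h2.trans ?_
      have h3 : (1 : ℝ) ≤ 2 ^ i := one_le_pow₀ (by norm_num)
      have h4 : (0 : ℝ) < 2 ^ ck A := by positivity
      rw [pow_zero, div_one]
      nlinarith [mul_le_mul h3 h3 (by norm_num) (by positivity)]
    refine h1.trans (le_of_eq ?_)
    rw [prod_mul_distrib]
    congr 1
    rw [prod_pow_eq_pow_sum, sum_range_id]
  | succ n ih =>
    intro P _ f hf hc s
    have hp : ∃ p, p ∉ Set.range f := by
      by_contra hcon
      push Not at hcon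
      have : Function.Surjective f := fun p => hcon p
      have := Fintype.card_le_of_surjective f this
      omega
    obtain ⟨p, hp⟩ := hp
    let f₀ : σ → {x : P // x ≠ p} := fun x => ⟨f x, fun h => hp ⟨x, h⟩⟩
    have hf₀ : Function.Injective f₀ := by
      intro x y h
      exact hf (congrArg Subtype.val h)
    have hg : f = (Equiv.optionSubtypeNe p) ∘ (some ∘ f₀) := by
      funext x
      simp [f₀]
    have hc₀ : Fintype.card {x : P // x ≠ p} = Fintype.card σ + n := by
      rw [Fintype.card_subtype_compl, Fintype.card_subtype_eq]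
      omega
    rcases s with _ | s
    · simp [ut]
    have i1 := ih _ f₀ hf₀ hc₀ (s + 1)
    have i2 := ih _ f₀ hf₀ hc₀ s
    rw [hg, sum_map A (Equiv.optionSubtypeNe p) (some ∘ f₀) (fun c => (ut (s + 1) c : ℝ)), card_sum,
      sum_map A (Equiv.optionSubtypeNe p) (some ∘ f₀) (fun _ => (1 : ℝ)), ← card_sum, card_opt,
      sum_opt A f₀ (fun c => (ut (s + 1) c : ℝ))]
    simp only [step]
    rw [← mul_sum, sum_add_distrib, ← mul_sum, ← mul_sum]
    set E1 := ∑ a ∈ Fil A f₀, (ut (s + 1) (ck a) : ℝ)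
    set E2 := ∑ a ∈ Fil A f₀, (ut s (ck a) : ℝ)
    set N : ℝ := ((Fil A f₀).card : ℝ)
    have hN : 0 ≤ N := Nat.cast_nonneg _
    have ht : (s + 1) * (s + 1 - 1) / 2 = s * (s - 1) / 2 + s := Nat.triangle_succ s
    set y : ℝ := 2 ^ ck A / 2 ^ n with hy
    have hy2 : (2 : ℝ) ^ ck A / 2 ^ (n + 1) = y / 2 := by
      rw [hy, pow_succ]
      field_simp
    have hprod : ∏ i ∈ range (s + 1), (1 + (2 : ℝ) ^ i * (y / 2)) =
        (1 + y / 2) * ∏ i ∈ range s, (1 + (2 : ℝ) ^ i * y) := by
      rw [prod_range_succ', mul_comm]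
      congr 1
      · rw [pow_zero, one_mul]
      · refine prod_congr rfl fun i _ => ?_
        rw [pow_succ]
        ring
    have hm : (2 : ℝ) ^ (s * (s - 1) / 2 + s) = 2 ^ (s * (s - 1) / 2) * 2 ^ s := pow_add _ _ _
    rw [hy2, hprod, ht, hm]
    rw [prod_range_succ, ht, hm] at i1
    set Q := ∏ i ∈ range s, (1 + (2 : ℝ) ^ i * y)
    set μ : ℝ := 2 ^ (s * (s - 1) / 2)
    have hz : (0 : ℝ) < 2 ^ s := by positivity
    have h1 : (1 / 2 ^ (s + 1)) * E1 ≤ (1 / 2 ^ (s + 1)) * (N * (μ * 2 ^ s * (Q * (1 + 2 ^ s * y)))) :=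
      mul_le_mul_of_nonneg_left i1 (by positivity)
    have h2 : ((2 ^ (s + 1) - 1) / 2) * E2 ≤ ((2 ^ (s + 1) - 1) / 2) * (N * (μ * Q)) := by
      refine mul_le_mul_of_nonneg_left i2 ?_
      have : (1 : ℝ) ≤ 2 ^ (s + 1) := one_le_pow₀ (by norm_num)
      linarith
    have h3 : (1 / 2 ^ (s + 1)) * (N * (μ * 2 ^ s * (Q * (1 + 2 ^ s * y)))) +
        ((2 ^ (s + 1) - 1) / 2) * (N * (μ * Q)) = N * (μ * 2 ^ s * ((1 + y / 2) * Q)) := by
      rw [pow_succ]
      field_simp
      ring
    rw [mul_assoc _ N]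
    refine mul_le_mul_of_nonneg_left ?_ (by positivity)
    linarith

end main

theorem t_BDM : S_BDM := by
  intro σ R _ _ A s h
  have h1 := bound A (Fintype.card R) (σ ⊕ R) Sum.inl Sum.inl_injective (by rw [Fintype.card_sum]) s
  have hF : (univ.filter fun a : Sym2 (σ ⊕ R) → ZMod 2 => ∀ e, a (e.map Sum.inl) = A e) = Fil A Sum.inl := by
    ext a
    rw [mem_Fil, mem_filter]
    exact ⟨fun h => h.2, fun h => ⟨mem_univ _, h⟩⟩
  rw [hF]
  refine h1.trans ?_
  refine mul_le_mul_of_nonneg_left ?_ (Nat.cast_nonneg _)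
  refine mul_le_mul_of_nonneg_left ?_ (by positivity)
  set y : ℝ := 2 ^ ck A / 2 ^ Fintype.card R with hy
  have hy0 : 0 < y := by positivity
  have h2 : (2 : ℝ) ^ s * y ≤ 1 / 2 := by
    rw [hy, ← mul_div_assoc, ← pow_add, div_le_iff₀ (by positivity)]
    have h3 : (2 : ℝ) ^ (s + ck A + 1) ≤ 2 ^ Fintype.card R := pow_le_pow_right₀ (by norm_num) h
    rw [pow_succ] at h3
    linarith
  have h4 : ∀ k : ℕ, (2 : ℝ) ^ k * y ≤ 1 / 2 → ∏ i ∈ range k, (1 + (2 : ℝ) ^ i * y) ≤ 1 + 2 * (2 ^ k * y) := by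
    intro k
    induction k with
    | zero => intro _; simp; positivity
    | succ k ih =>
      intro hk
      rw [pow_succ] at hk
      have hz : 0 < (2 : ℝ) ^ k * y := by positivity
      have h5 := ih (by linarith)
      rw [prod_range_succ, pow_succ]
      have h6 : (∏ i ∈ range k, (1 + (2 : ℝ) ^ i * y)) * (1 + 2 ^ k * y) ≤
          (1 + 2 * (2 ^ k * y)) * (1 + 2 ^ k * y) := mul_le_mul_of_nonneg_right h5 (by positivity)
      refine h6.trans ?_
      nlinarith
  refine (h4 s h2).trans ?_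
  rw [pow_add]
  have h5 : (2 : ℝ) ^ s * 2 ^ ck A / 2 ^ Fintype.card R = 2 ^ s * y := by
    rw [hy, mul_div_assoc]
  rw [h5]
  have : 0 < (2 : ℝ) ^ s * y := by positivity
  linarith

end Q280.MXB
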