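import Pool.Agent.Q44.MX.StmC

/-!
# Project MX: the corank of a bordered symmetric matrix
-/

set_option autoImplicit false
set_option linter.unusedVariables false
set_option linter.unusedSectionVars false

namespace Q280.MXB

open Finset Module
open Q44.MX
open scoped Classical

section one

variable {P : Type} [Fintype P]

/-- the bordered matrix -/
noncomputable def bf (a : Sym2 P → ZMod 2) (v : P → ZMod 2) (d : ZMod 2) : Option P → Option P → ZMod 2
  | some p, some q => a s(p, q)
  | some p, none => v p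
  | none, some q => v q
  | none, none => d

theorem bf_symm (a : Sym2 P → ZMod 2) (v : P → ZMod 2) (d : ZMod 2) (p q : Option P) :
    bf a v d p q = bf a v d q p := by
  rcases p with _ | p <;> rcases q with _ | q <;> simp [bf, Sym2.eq_swap]

noncomputable def bord (a : Sym2 P → ZMod 2) (v : P → ZMod 2) (d : ZMod 2) : Sym2 (Option P) → ZMod 2 :=
  Sym2.lift ⟨bf a v d, bf_symm a v d⟩

theorem bord_mk (a : Sym2 P → ZMod 2) (v : P → ZMod 2) (d : ZMod 2) (p q : Option P) :
    bord a v d s(p, q) = bf a v d p q := rfl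

/-- the equivalence -/
noncomputable def bordE : (Sym2 P → ZMod 2) × (P → ZMod 2) × ZMod 2 ≃ (Sym2 (Option P) → ZMod 2) where
  toFun x := bord x.1 x.2.1 x.2.2
  invFun b := (fun e => b (e.map some), fun p => b s(some p, none), b s(none, none))
  left_inv x := by
    obtain ⟨a, v, d⟩ := x
    refine Prod.ext ?_ (Prod.ext ?_ ?_)
    · funext e
      induction e using Sym2.ind with
      | _ p q => simp [bord_mk, bf]
    · funext p
      simp [bord_mk, bf]
    · simp [bord_mk, bf]
  right_inv b := by
    funext e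
    induction e using Sym2.ind with
    | _ p q =>
      rcases p with _ | p <;> rcases q with _ | q <;> simp [bord_mk, bf, Sym2.eq_swap]

theorem sm_apply (a : Sym2 P → ZMod 2) (x : P → ZMod 2) (p : P) : sm a x p = ∑ q, a s(p, q) * x q := rfl

theorem sm_some (a : Sym2 P → ZMod 2) (v : P → ZMod 2) (d : ZMod 2) (x : Option P → ZMod 2) (p : P) :
    sm (bord a v d) x (some p) = sm a (fun q => x (some q)) p + v p * x none := by
  rw [sm_apply, Fintype.sum_option, sm_apply]
  simp only [bord_mk, bf]
  ring

theorem sm_none (a : Sym2 P → ZMod 2) (v : P → ZMod 2) (d : ZMod 2) (x : Option P → ZMod 2) :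
    sm (bord a v d) x none = ∑ q, v q * x (some q) + d * x none := by
  rw [sm_apply, Fintype.sum_option]
  simp only [bord_mk, bf]
  ring

theorem sm_symm (a : Sym2 P → ZMod 2) (x y : P → ZMod 2) :
    ∑ p, sm a x p * y p = ∑ p, x p * sm a y p := by
  simp only [sm_apply, sum_mul, mul_sum]
  rw [sum_comm]
  refine sum_congr rfl fun q _ => sum_congr rfl fun p _ => ?_
  rw [Sym2.eq_swap]
  ring

/-- the kernel as a finite set -/
noncomputable def Kf (a : Sym2 P → ZMod 2) : Finset (P → ZMod 2) := univ.filter fun x => sm a x = 0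

theorem card_Kf (a : Sym2 P → ZMod 2) : (Kf a).card = 2 ^ ck a := by
  have h := Module.natCard_eq_pow_finrank (K := ZMod 2) (V := LinearMap.ker (sm a))
  have h2 : Nat.card (LinearMap.ker (sm a)) = (Kf a).card := by
    rw [Nat.card_eq_fintype_card]
    rw [Fintype.card_of_subtype (Kf a)]
    intro x
    simp [Kf]
  rw [← h2, h]
  simp [ck]

theorem z2 (z : ZMod 2) : z = 0 ∨ z = 1 := by
  revert z; decide

theorem Kf_bord (a : Sym2 P → ZMod 2) (v : P → ZMod 2) (d : ZMod 2) :
    (Kf (bord a v d)).card = (univ.filter fun y : P → ZMod 2 => sm a y = 0 ∧ ∑ q, v q * y q = 0).card +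
      (univ.filter fun y : P → ZMod 2 => sm a y = v ∧ ∑ q, v q * y q = d).card := by
  have h0 := card_filter_add_card_filter_not (s := Kf (bord a v d)) (fun x => x none = 0)
  rw [← h0]
  congr 1
  · refine card_bij' (fun x _ => fun q => x (some q)) (fun y _ => fun o => o.elim 0 y) ?_ ?_ ?_ ?_
    · intro x hx
      simp only [Kf, mem_filter, mem_univ, true_and] at hx ⊢
      obtain ⟨h1, h2⟩ := hx
      constructor
      · funext p
        have := congrFun h1 (some p)
        rw [sm_some, h2] at this
        simpa using this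
      · have := congrFun h1 none
        rw [sm_none, h2] at this
        simpa using this
    · intro y hy
      simp only [Kf, mem_filter, mem_univ, true_and] at hy ⊢
      obtain ⟨h1, h2⟩ := hy
      refine ⟨?_, rfl⟩
      funext o
      rcases o with _ | p
      · rw [sm_none]
        simpa using h2
      · rw [sm_some]
        simp [h1]
    · intro x hx
      simp only [Kf, mem_filter, mem_univ, true_and] at hx
      funext o
      rcases o with _ | p
      · simp [hx.2]
      · rfl
    · intro y hy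
      rfl
  · refine card_bij' (fun x _ => fun q => x (some q)) (fun y _ => fun o => o.elim 1 y) ?_ ?_ ?_ ?_
    · intro x hx
      simp only [Kf, mem_filter, mem_univ, true_and] at hx ⊢
      obtain ⟨h1, h2⟩ := hx
      have h3 : x none = 1 := (z2 _).resolve_left h2
      constructor
      · funext p
        have := congrFun h1 (some p)
        rw [sm_some, h3, mul_one] at this
        have h4 : sm a (fun q => x (some q)) p = - v p := eq_neg_of_add_eq_zero_left this
        rw [h4, ZMod.neg_eq_self_mod_two]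
      · have := congrFun h1 none
        rw [sm_none, h3, mul_one] at this
        have h4 := eq_neg_of_add_eq_zero_left this
        rw [h4, ZMod.neg_eq_self_mod_two]
    · intro y hy
      simp only [Kf, mem_filter, mem_univ, true_and] at hy ⊢
      obtain ⟨h1, h2⟩ := hy
      refine ⟨?_, by simp⟩
      funext o
      rcases o with _ | p
      · rw [sm_none]
        simp only [Option.elim, mul_one]
        rw [h2]
        exact CharTwo.add_self_eq_zero d
      · rw [sm_some]
        simp only [Option.elim, mul_one]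
        rw [h1]
        exact CharTwo.add_self_eq_zero _
    · intro x hx
      simp only [Kf, mem_filter, mem_univ, true_and] at hx
      funext o
      rcases o with _ | p
      · simp [(z2 _).resolve_left hx.2]
      · rfl
    · intro y hy
      rfl

theorem pow_inj {a b : ℕ} (h : 2 ^ a = 2 ^ b) : a = b := Nat.pow_right_injective le_rfl h

/-- `v` in the image, the right corner -/
theorem ck_eq (a : Sym2 P → ZMod 2) (u : P → ZMod 2) :
    ck (bord a (sm a u) (∑ q, sm a u q * u q)) = ck a + 1 := by
  apply pow_inj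
  rw [← card_Kf, Kf_bord, pow_succ, ← card_Kf, mul_two]
  congr 1
  · congr 1
    ext y
    simp only [Kf, mem_filter, mem_univ, true_and, and_iff_left_iff_imp]
    intro hy
    rw [sm_symm, hy]
    simp
  · refine card_bij' (fun y _ => y - u) (fun y _ => y + u) ?_ ?_ ?_ ?_
    · intro y hy
      simp only [Kf, mem_filter, mem_univ, true_and] at hy ⊢
      rw [map_sub, hy.1, sub_self]
    · intro y hy
      simp only [Kf, mem_filter, mem_univ, true_and] at hy ⊢
      refine ⟨by rw [map_add, hy, zero_add], ?_⟩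
      rw [sm_symm, map_add, hy, zero_add, sm_symm]
    · intro y _
      simp
    · intro y _
      simp

/-- `v` in the image, the wrong corner -/
theorem ck_ne (a : Sym2 P → ZMod 2) (u : P → ZMod 2) (d : ZMod 2) (hd : d ≠ ∑ q, sm a u q * u q) :
    ck (bord a (sm a u) d) = ck a := by
  apply pow_inj
  rw [← card_Kf, Kf_bord, ← card_Kf]
  have h1 : (univ.filter fun y : P → ZMod 2 => sm a y = sm a u ∧ ∑ q, sm a u q * y q = d) = ∅ := by
    apply filter_eq_empty_iff.2
    intro y _ hy
    apply hd
    rw [← hy.2, sm_symm, hy.1, sm_symm]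
  rw [h1, card_empty, add_zero]
  congr 1
  ext y
  simp only [Kf, mem_filter, mem_univ, true_and, and_iff_left_iff_imp]
  intro hy
  rw [sm_symm, hy]
  simp

/-- the functional -/
noncomputable def fn (v : P → ZMod 2) : (P → ZMod 2) →ₗ[ZMod 2] ZMod 2 :=
  ∑ q, v q • LinearMap.proj q

theorem fn_apply (v y : P → ZMod 2) : fn v y = ∑ q, v q * y q := by
  simp [fn, LinearMap.sum_apply]

theorem mem_range_of (a : Sym2 P → ZMod 2) (v : P → ZMod 2)
    (h : ∀ y, sm a y = 0 → ∑ q, v q * y q = 0) : ∃ u, sm a u = v := by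
  have h1 : fn v ∈ (LinearMap.ker (sm a)).dualAnnihilator := by
    rw [Submodule.mem_dualAnnihilator]
    intro y hy
    rw [fn_apply]
    exact h y (LinearMap.mem_ker.1 hy)
  rw [← LinearMap.range_dualMap_eq_dualAnnihilator_ker] at h1
  obtain ⟨ψ, hψ⟩ := h1
  refine ⟨fun p => ψ (Pi.single p 1), ?_⟩
  have h2 : ∀ x, ψ x = ∑ p, x p * ψ (Pi.single p 1) := by
    intro x
    conv_lhs => rw [pi_eq_sum_univ' x]
    rw [map_sum]
    refine sum_congr rfl fun p _ => ?_
    rw [map_smul, smul_eq_mul]
  funext p
  have h3 : fn v (Pi.single p 1) = v p := by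
    rw [fn_apply]
    simp [Pi.single_apply]
  rw [← h3, ← hψ, LinearMap.dualMap_apply, h2, sm_symm]
  simp [Pi.single_apply]

/-- `v` not in the image -/
theorem ck_out (a : Sym2 P → ZMod 2) (v : P → ZMod 2) (d : ZMod 2) (hv : ∀ u, sm a u ≠ v) :
    ck (bord a v d) + 1 = ck a := by
  apply pow_inj
  rw [pow_succ, ← card_Kf, Kf_bord, ← card_Kf]
  have h1 : (univ.filter fun y : P → ZMod 2 => sm a y = v ∧ ∑ q, v q * y q = d) = ∅ :=
    filter_eq_empty_iff.2 fun y _ hy => hv y hy.1
  rw [h1, card_empty, add_zero, mul_two]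
  have h2 : ∃ u, sm a u = 0 ∧ ∑ q, v q * u q = 1 := by
    by_contra hc
    push Not at hc
    obtain ⟨u, hu⟩ := mem_range_of a v fun y hy => (z2 _).resolve_right (hc y hy)
    exact hv u hu
  obtain ⟨u, hu, hu1⟩ := h2
  have h0 := card_filter_add_card_filter_not (s := Kf a) (fun y => ∑ q, v q * y q = 0)
  rw [← h0]
  congr 1
  · congr 1
    ext y
    simp [Kf]
  · refine card_bij' (fun y _ => y + u) (fun y _ => y - u) ?_ ?_ ?_ ?_
    · intro y hy
      simp only [Kf, mem_filter, mem_univ, true_and, Pi.add_apply, mul_add, sum_add_distrib] at hy ⊢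
      rw [map_add, hy.1, hu, hy.2, hu1]
      simp
    · intro y hy
      simp only [Kf, mem_filter, mem_univ, true_and, Pi.sub_apply, mul_sub, sum_sub_distrib] at hy ⊢
      rw [map_sub, hy.1, hu, (z2 _).resolve_left hy.2, hu1]
      simp
    · intro y _
      simp
    · intro y _
      simp

/-- the number of the elements of the image -/
theorem card_im (a : Sym2 P → ZMod 2) :
    (univ.filter fun v : P → ZMod 2 => ∃ u, sm a u = v).card * 2 ^ ck a = 2 ^ Fintype.card P := by
  have h1 := LinearMap.finrank_range_add_finrank_ker (sm a)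
  have h := Module.natCard_eq_pow_finrank (K := ZMod 2) (V := LinearMap.range (sm a))
  have h2 : Nat.card (LinearMap.range (sm a)) = (univ.filter fun v : P → ZMod 2 => ∃ u, sm a u = v).card := by
    rw [Nat.card_eq_fintype_card]
    rw [Fintype.card_of_subtype]
    intro x
    simp
  rw [← h2, h, Nat.card_zmod, ck, ← pow_add, h1]
  simp

/-! ### the moments -/

/-- the real falling product -/
noncomputable def fr (s : ℕ) (x : ℝ) : ℝ := ∏ i ∈ range s, (x - 2 ^ i)

theorem ut_cast (s c : ℕ) : (ut s c : ℝ) = fr s (2 ^ c) := by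
  unfold ut fr
  rcases le_or_gt s c with h | h
  · rw [Nat.cast_prod]
    refine prod_congr rfl fun i hi => ?_
    rw [Nat.cast_sub (Nat.pow_le_pow_right (by norm_num) ((mem_range.1 hi).le.trans h))]
    push_cast
    rfl
  · rw [prod_eq_zero (mem_range.2 h) (by simp), prod_eq_zero (mem_range.2 h) (by simp)]
    simp

theorem fr_two (s : ℕ) (x : ℝ) : fr (s + 1) (2 * x) = (2 * x - 1) * 2 ^ s * fr s x := by
  unfold fr
  rw [prod_range_succ']
  have : ∏ k ∈ range s, (2 * x - 2 ^ (k + 1)) = 2 ^ s * ∏ k ∈ range s, (x - 2 ^ k) := by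
    rw [← card_range s, ← prod_const, card_range, ← prod_mul_distrib]
    refine prod_congr rfl fun i _ => ?_
    ring
  rw [this]
  ring

theorem fr_succ (s : ℕ) (x : ℝ) : fr (s + 1) x = fr s x * (x - 2 ^ s) := by
  unfold fr
  rw [prod_range_succ]

/-- one step for the moments -/
theorem step (a : Sym2 P → ZMod 2) (s : ℕ) :
    ∑ v : P → ZMod 2, ∑ d : ZMod 2, (ut (s + 1) (ck (bord a v d)) : ℝ) =
      2 ^ (Fintype.card P + 1) * ((1 / 2 ^ (s + 1)) * ut (s + 1) (ck a) +
        ((2 ^ (s + 1) - 1) / 2) * ut s (ck a)) := by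
  have hc := card_im a
  set I := univ.filter fun v : P → ZMod 2 => ∃ u, sm a u = v with hI
  have h1 : ∀ v ∈ I, ∑ d : ZMod 2, (ut (s + 1) (ck (bord a v d)) : ℝ) =
      fr (s + 1) (2 ^ ck a) + fr (s + 1) (2 * 2 ^ ck a) := by
    intro v hv
    obtain ⟨u, rfl⟩ := (mem_filter.1 hv).2
    have e1 : ∀ d : ZMod 2, d = ∑ q, sm a u q * u q → (ut (s + 1) (ck (bord a (sm a u) d)) : ℝ) =
        fr (s + 1) (2 * 2 ^ ck a) := by
      intro d hd
      rw [hd, ck_eq, ut_cast, pow_succ, mul_comm]
    have e2 : ∀ d : ZMod 2, d ≠ ∑ q, sm a u q * u q → (ut (s + 1) (ck (bord a (sm a u) d)) : ℝ) =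
        fr (s + 1) (2 ^ ck a) := by
      intro d hd
      rw [ck_ne _ _ _ hd, ut_cast]
    have e3 : ∑ d : ZMod 2, (ut (s + 1) (ck (bord a (sm a u) d)) : ℝ) =
        ut (s + 1) (ck (bord a (sm a u) 0)) + ut (s + 1) (ck (bord a (sm a u) 1)) :=
      Fin.sum_univ_two (fun d : ZMod 2 => (ut (s + 1) (ck (bord a (sm a u) d)) : ℝ))
    rw [e3]
    rcases z2 (∑ q, sm a u q * u q) with h | h
    · rw [e1 0 h.symm, e2 1 (by rw [h]; decide)]
      ring
    · rw [e1 1 h.symm, e2 0 (by rw [h]; decide)]
  have h2 : ∀ v ∈ univ.filter (fun v => ¬ ∃ u, sm a u = v), ∑ d : ZMod 2, (ut (s + 1) (ck (bord a v d)) : ℝ) =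
      2 * fr (s + 1) (2 ^ ck a / 2) := by
    intro v hv
    have hv' : ∀ u, sm a u ≠ v := by
      have := (mem_filter.1 hv).2
      push Not at this
      exact this
    have e1 : ∀ d : ZMod 2, (ut (s + 1) (ck (bord a v d)) : ℝ) = fr (s + 1) (2 ^ ck a / 2) := by
      intro d
      rw [ut_cast, ← ck_out a v d hv', pow_succ]
      congr 1
      field_simp
    simp only [e1]
    rw [sum_const, card_univ, ZMod.card]
    simp
  have h3 : (univ.filter (fun v : P → ZMod 2 => ¬ ∃ u, sm a u = v)).card + I.card = 2 ^ Fintype.card P := by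
    have := card_filter_add_card_filter_not (s := (univ : Finset (P → ZMod 2))) (fun v => ∃ u, sm a u = v)
    rw [← hI, card_univ, Fintype.card_fun, ZMod.card] at this
    omega
  rw [← sum_filter_add_sum_filter_not univ (fun v => ∃ u, sm a u = v), ← hI, sum_congr rfl h1,
    sum_congr rfl h2, sum_const, sum_const, nsmul_eq_mul, nsmul_eq_mul, ut_cast, ut_cast]
  set x : ℝ := 2 ^ ck a with hx
  have hx0 : 0 < x := by positivity
  have hcR : (I.card : ℝ) * x = 2 ^ Fintype.card P := by
    rw [hx]; exact_mod_cast hc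
  have h3R : ((univ.filter (fun v : P → ZMod 2 => ¬ ∃ u, sm a u = v)).card : ℝ) = I.card * x - I.card := by
    have h4 : ((univ.filter (fun v : P → ZMod 2 => ¬ ∃ u, sm a u = v)).card : ℝ) + I.card =
        2 ^ Fintype.card P := by exact_mod_cast h3
    rw [hcR]
    linarith
  rw [h3R, pow_succ (2 : ℝ) (Fintype.card P), ← hcR]
  have e1 := fr_two s x
  have e2 := fr_two (s + 1) (x / 2)
  rw [mul_div_cancel₀ x (two_ne_zero' ℝ), fr_succ (s + 1) x, fr_succ s x] at e2
  rw [e1, fr_succ s x]
  have h2s : (0 : ℝ) < 2 ^ (s + 1) := by positivity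
  have e3 : (x - 1) * fr (s + 1) (x / 2) = fr s x * (x - 2 ^ s) * (x - 2 ^ (s + 1)) / 2 ^ (s + 1) := by
    rw [e2]
    field_simp
  have e4 : ((I.card : ℝ) * x - I.card) * (2 * fr (s + 1) (x / 2)) =
      2 * I.card * ((x - 1) * fr (s + 1) (x / 2)) := by ring
  rw [e4, e3]
  field_simp
  ring

end one

end Q280.MXB
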