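import Pool.Agent.Q280.MX.CntB

/-!
# Project MX, counting: the number of stable isotropic subspaces
-/

set_option autoImplicit false
set_option linter.unusedVariables false
set_option linter.unusedSectionVars false

namespace Q280.MXC

open Finset Module
open scoped Classical

section count

variable {U : Type} [AddCommGroup U] [Module F2 U] [Fintype U] [Fintype (Submodule F2 U)]
variable {B : LinearMap.BilinForm F2 U} {T : U →ₗ[F2] U} {e d : F2}

theorem card_filter_mem (E : Submodule F2 U) :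
    (univ.filter fun w : U => w ∈ E).card = Nat.card E := by
  rw [Nat.card_eq_fintype_card]
  exact (Fintype.card_subtype _).symm

theorem seq_upper (hO : Op B T e d) (N : ℕ) (hN : finrank F2 U = N) (k : ℕ) :
    (univ.filter fun v : Fin k → U => Gd B T k v).card * 2 ^ (k * k) ≤ 2 ^ (N * k + k) := by
  induction k with
  | zero => simp [Gd]
  | succ k ih =>
    have h1 : (univ.filter fun v : Fin (k + 1) → U => Gd B T (k + 1) v).card ≤
        2 ^ (N - 2 * k) * (univ.filter fun v : Fin k → U => Gd B T k v).card := by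
      refine card_le_mul_card_image_of_maps_to (f := fun v => Fin.init v) (fun v hv => ?_) _
        (fun b hb => ?_)
      · rw [mem_filter] at hv ⊢
        exact ⟨mem_univ _, hv.2.1⟩
      · rw [mem_filter] at hb
        have h2 := hO.al.fr (Fs T b)
        rw [Fs_rank hO.sq hb.2, hN] at h2
        have h3 : Nat.card (B.orthogonal (Fs T b)) = 2 ^ (N - 2 * k) := by
          rw [card_pow]; congr 1; omega
        rw [← h3, ← card_filter_mem]
        refine card_le_card_of_injOn (fun v => v (Fin.last k)) (fun v hv => ?_) ?_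
        · simp only [coe_filter, mem_filter, mem_univ, true_and, Set.mem_ofPred_eq] at hv ⊢
          have := hv.1.2.1
          rw [hv.2] at this
          exact this
        · intro v hv v' hv' h
          simp only [coe_filter, mem_filter, mem_univ, true_and, Set.mem_ofPred_eq] at hv hv'
          rw [← Fin.snoc_init_self v, ← Fin.snoc_init_self v', hv.2, hv'.2]
          simp only at h
          rw [h]
    by_cases hz : (univ.filter fun v : Fin k → U => Gd B T k v).card = 0
    · rw [hz, mul_zero, Nat.le_zero] at h1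
      rw [h1, zero_mul]
      exact Nat.zero_le _
    · obtain ⟨b, hb⟩ := card_pos.1 (Nat.pos_of_ne_zero hz)
      rw [mem_filter] at hb
      have h2 := hO.al.fr (Fs T b)
      rw [Fs_rank hO.sq hb.2, hN] at h2
      have h3 : 2 * k ≤ N := by omega
      calc _ ≤ 2 ^ (N - 2 * k) * (univ.filter fun v : Fin k → U => Gd B T k v).card *
            2 ^ ((k + 1) * (k + 1)) := Nat.mul_le_mul_right _ h1
        _ = ((univ.filter fun v : Fin k → U => Gd B T k v).card * 2 ^ (k * k)) *
            2 ^ (N + 1) := by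
            have e1 : 2 ^ ((k + 1) * (k + 1)) = 2 ^ (k * k) * 2 ^ (2 * k + 1) := by
              rw [← pow_add]; congr 1; ring
            have e2 : 2 ^ (N - 2 * k) * 2 ^ (2 * k + 1) = 2 ^ (N + 1) := by
              rw [← pow_add]; congr 1; omega
            rw [e1, ← e2]
            ring
        _ ≤ 2 ^ (N * k + k) * 2 ^ (N + 1) := Nat.mul_le_mul_right _ ih
        _ = 2 ^ (N * (k + 1) + (k + 1)) := by rw [← pow_add]; congr 1; ring

/-- the good sequences in `Λ` -/
noncomputable def SL (B : LinearMap.BilinForm F2 U) (T : U →ₗ[F2] U) (Λ : Submodule F2 U) (k : ℕ) :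
    Finset (Fin k → U) := univ.filter fun v => Gd B T k v ∧ ∀ l, v l ∈ Λ

theorem SL_step (hO : Op B T e d) {Λ : Submodule F2 U} (hΛ : ∀ z ∈ Λ, T z ∈ Λ) (hI : Iso B Λ)
    (k : ℕ) (hne : (SL B T Λ (k + 1)).Nonempty) :
    Nat.card Λ * (SL B T Λ k).card ≤ 4 * (SL B T Λ (k + 1)).card := by
  obtain ⟨w, hw⟩ := hne
  simp only [SL, mem_filter, mem_univ, true_and] at hw
  have hmaps : ((SL B T Λ (k + 1) : Finset _) : Set (Fin (k + 1) → U)).MapsTo
      (fun v => Fin.init v) (SL B T Λ k) := by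
    intro v hv
    simp only [SL, coe_filter, mem_univ, true_and, Set.mem_ofPred_eq] at hv ⊢
    exact ⟨hv.1.1, fun l => hv.2 l.castSucc⟩
  rw [card_eq_sum_card_fiberwise hmaps, mul_sum, mul_comm, ← smul_eq_mul, ← sum_const]
  refine sum_le_sum fun b hb => ?_
  simp only [SL, mem_filter, mem_univ, true_and] at hb
  have hA : ∀ μ : F2, ¬ Λ ≤ (Fs T b).comap (Tm T μ) := by
    intro μ h
    have := maxlen hO.sq hb.1 hw.1 hΛ hw.2 μ (fun z hz => h hz)
    omega
  refine (allowed Λ _ _ (hA 0) (hA 1)).trans (Nat.mul_le_mul_left 4 ?_)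
  refine card_le_card_of_injOn (fun x => (Fin.snoc b x : Fin (k + 1) → U)) (fun x hx => ?_) ?_
  · simp only [SL, coe_filter, mem_filter, mem_univ, true_and, Set.mem_ofPred_eq,
      Submodule.mem_comap, Tm_apply, zero_smul, add_zero, one_smul] at hx ⊢
    refine ⟨⟨⟨?_, ?_, ?_, ?_⟩, ?_⟩, ?_⟩
    · rw [Fin.init_snoc]; exact hb.1
    · rw [Fin.init_snoc, Fin.snoc_last]
      intro f hf
      exact hI f (Fs_le hΛ hb.2 hf) x hx.1
    · rw [Fin.init_snoc, Fin.snoc_last]; exact hx.2.1
    · rw [Fin.init_snoc, Fin.snoc_last]; exact hx.2.2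
    · intro l
      rcases Fin.eq_castSucc_or_eq_last l with ⟨i, rfl⟩ | rfl
      · rw [Fin.snoc_castSucc]; exact hb.2 i
      · rw [Fin.snoc_last]; exact hx.1
    · exact Fin.init_snoc _ _
  · intro x _ y _ h
    have := congrFun h (Fin.last k)
    simpa using this

theorem SL_down {Λ : Submodule F2 U} {k : ℕ} (hne : (SL B T Λ (k + 1)).Nonempty) :
    (SL B T Λ k).Nonempty := by
  obtain ⟨w, hw⟩ := hne
  simp only [SL, mem_filter, mem_univ, true_and] at hw
  refine ⟨Fin.init w, ?_⟩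
  simp only [SL, mem_filter, mem_univ, true_and]
  exact ⟨hw.1.1, fun l => hw.2 l.castSucc⟩

theorem SL_lower (hO : Op B T e d) {Λ : Submodule F2 U} (hΛ : ∀ z ∈ Λ, T z ∈ Λ) (hI : Iso B Λ)
    (k : ℕ) (hne : (SL B T Λ k).Nonempty) :
    (Nat.card Λ) ^ k ≤ 4 ^ k * (SL B T Λ k).card := by
  induction k with
  | zero =>
    rw [pow_zero, pow_zero, one_mul]
    exact card_pos.2 hne
  | succ k ih =>
    have h1 := ih (SL_down hne)
    have h2 := SL_step hO hΛ hI k hne
    calc (Nat.card Λ) ^ (k + 1) = Nat.card Λ * (Nat.card Λ) ^ k := by rw [pow_succ, mul_comm]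
      _ ≤ Nat.card Λ * (4 ^ k * (SL B T Λ k).card) := Nat.mul_le_mul_left _ h1
      _ = 4 ^ k * (Nat.card Λ * (SL B T Λ k).card) := by ring
      _ ≤ 4 ^ k * (4 * (SL B T Λ (k + 1)).card) := Nat.mul_le_mul_left _ h2
      _ = 4 ^ (k + 1) * (SL B T Λ (k + 1)).card := by ring

/-- the family of the stable isotropic subspaces -/
noncomputable def LL (B : LinearMap.BilinForm F2 U) (T : U →ₗ[F2] U) (j i : ℕ) :
    Finset (Submodule F2 U) :=
  univ.filter fun Λ => (∀ z ∈ Λ, T z ∈ Λ) ∧ Iso B Λ ∧ 2 ^ (2 * j) ≤ 2 ^ i * Nat.card Λ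

/-- those with maximal length `a` -/
noncomputable def LLa (B : LinearMap.BilinForm F2 U) (T : U →ₗ[F2] U) (j i a : ℕ) :
    Finset (Submodule F2 U) :=
  (LL B T j i).filter fun Λ => (SL B T Λ a).Nonempty ∧ ¬ (SL B T Λ (a + 1)).Nonempty

theorem inside (hO : Op B T e d) (j i a : ℕ) (hN : finrank F2 U = 4 * j) (v : Fin a → U)
    (hv : Gd B T a v) :
    ((LLa B T j i a).filter fun Λ => v ∈ SL B T Λ a).card ≤ 2 * (Nat.card U) ^ i := by
  rcases ((LLa B T j i a).filter fun Λ => v ∈ SL B T Λ a).eq_empty_or_nonempty with h0 | ⟨Λ₀, h0⟩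
  · rw [h0, card_empty]; exact Nat.zero_le _
  have hF : Iso B (Fs T v) := by
    simp only [LLa, LL, mem_filter, mem_univ, true_and] at h0
    obtain ⟨⟨⟨h1, h2, _⟩, _⟩, h3⟩ := h0
    simp only [SL, mem_filter, mem_univ, true_and] at h3
    intro z hz z' hz'
    exact h2 z (Fs_le h1 h3.2 hz) z' (Fs_le h1 h3.2 hz')
  have hG : ∀ μ, Nat.card (GG B T (Fs T v) μ) ≤ 2 ^ (2 * j) := by
    intro μ
    rw [card_pow]
    exact Nat.pow_le_pow_right (by norm_num) (iso_card hO.al _ (GG_iso hO hv hF μ) (2 * j)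
      (by rw [hN]; ring))
  have hsub : ((LLa B T j i a).filter fun Λ => v ∈ SL B T Λ a) ⊆
      (univ.filter fun Λ : Submodule F2 U => Λ ≤ GG B T (Fs T v) 0 ∧
        Nat.card (GG B T (Fs T v) 0) ≤ 2 ^ i * Nat.card Λ) ∪
      (univ.filter fun Λ : Submodule F2 U => Λ ≤ GG B T (Fs T v) 1 ∧
        Nat.card (GG B T (Fs T v) 1) ≤ 2 ^ i * Nat.card Λ) := by
    intro Λ hΛ
    simp only [LLa, LL, mem_filter, mem_univ, true_and] at hΛ
    obtain ⟨⟨⟨h1, h2, h3⟩, h4, h5⟩, h6⟩ := hΛ
    simp only [SL, mem_filter, mem_univ, true_and] at h6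
    have h7 : ∀ w ∈ Λ, w ∈ (Fs T v).comap (Tm T 0) ∨ w ∈ (Fs T v).comap (Tm T 1) := by
      intro w hw
      by_contra hc
      push Not at hc
      obtain ⟨c1, c2⟩ := hc
      rw [Submodule.mem_comap, Tm_apply] at c1 c2
      rw [zero_smul, add_zero] at c1
      rw [one_smul] at c2
      refine h5 ⟨Fin.snoc v w, ?_⟩
      simp only [SL, mem_filter, mem_univ, true_and]
      refine ⟨⟨?_, ?_, ?_, ?_⟩, ?_⟩
      · rw [Fin.init_snoc]; exact hv
      · rw [Fin.init_snoc, Fin.snoc_last]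
        intro f hf
        exact h2 f (Fs_le h1 h6.2 hf) w hw
      · rw [Fin.init_snoc, Fin.snoc_last]; exact c1
      · rw [Fin.init_snoc, Fin.snoc_last]; exact c2
      · intro l
        rcases Fin.eq_castSucc_or_eq_last l with ⟨m, rfl⟩ | rfl
        · rw [Fin.snoc_castSucc]; exact h6.2 m
        · rw [Fin.snoc_last]; exact hw
    have h8 : Λ ≤ B.orthogonal (Fs T v) := fun w hw f hf => h2 f (Fs_le h1 h6.2 hf) w hw
    rw [mem_union, mem_filter, mem_filter]
    rcases union_sub Λ _ _ h7 with h9 | h9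
    · exact Or.inl ⟨mem_univ _, le_inf h8 h9, (hG 0).trans h3⟩
    · exact Or.inr ⟨mem_univ _, le_inf h8 h9, (hG 1).trans h3⟩
  refine (card_le_card hsub).trans ((card_union_le _ _).trans ?_)
  have h1 := under_count hO.al (GG B T (Fs T v) 0) i
  have h2 := under_count hO.al (GG B T (Fs T v) 1) i
  omega

theorem LLa_card (hO : Op B T e d) (j i a : ℕ) (hN : finrank F2 U = 4 * j) (ha : a ≤ j) :
    (LLa B T j i a).card ≤ 2 ^ (j * j + 5 * (i * j) + 3 * j + 1) := by
  have hdc : ∑ Λ ∈ LLa B T j i a, (SL B T Λ a).card ≤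
      (univ.filter fun v : Fin a → U => Gd B T a v).card * (2 * (Nat.card U) ^ i) := by
    have h1 := sum_card_bipartiteAbove_eq_sum_card_bipartiteBelow (s := LLa B T j i a)
      (t := univ.filter fun v : Fin a → U => Gd B T a v) (r := fun Λ v => v ∈ SL B T Λ a)
    have h2 : ∀ Λ ∈ LLa B T j i a, (SL B T Λ a).card =
        ((univ.filter fun v : Fin a → U => Gd B T a v).bipartiteAbove
          (fun Λ v => v ∈ SL B T Λ a) Λ).card := by
      intro Λ _
      congr 1
      ext v
      simp only [bipartiteAbove, mem_filter, mem_univ, true_and, SL]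
      tauto
    rw [sum_congr rfl h2, h1, ← smul_eq_mul, ← sum_const]
    refine sum_le_sum fun v hv => ?_
    rw [mem_filter] at hv
    exact inside hO j i a hN v hv.2
  have hlow : ∀ Λ ∈ LLa B T j i a, 2 ^ (2 * j * a) ≤ 2 ^ (i * a + 2 * a) * (SL B T Λ a).card := by
    intro Λ hΛ
    simp only [LLa, LL, mem_filter, mem_univ, true_and] at hΛ
    obtain ⟨⟨h1, h2, h3⟩, h4, _⟩ := hΛ
    have h5 := SL_lower hO h1 h2 a h4
    calc 2 ^ (2 * j * a) = (2 ^ (2 * j)) ^ a := by rw [← pow_mul]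
      _ ≤ (2 ^ i * Nat.card Λ) ^ a := Nat.pow_le_pow_left h3 a
      _ = 2 ^ (i * a) * (Nat.card Λ) ^ a := by rw [mul_pow, ← pow_mul]
      _ ≤ 2 ^ (i * a) * (4 ^ a * (SL B T Λ a).card) := Nat.mul_le_mul_left _ h5
      _ = 2 ^ (i * a + 2 * a) * (SL B T Λ a).card := by
          rw [show (4 : ℕ) = 2 ^ 2 by norm_num, ← pow_mul, pow_add, mul_assoc]
  have hU : Nat.card U = 2 ^ (4 * j) := by rw [card_powU, hN]
  have h1 : (LLa B T j i a).card * 2 ^ (2 * j * a) ≤
      2 ^ (i * a + 2 * a) * ((univ.filter fun v : Fin a → U => Gd B T a v).card *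
        (2 * (Nat.card U) ^ i)) := by
    calc _ = ∑ Λ ∈ LLa B T j i a, 2 ^ (2 * j * a) := by rw [sum_const, smul_eq_mul]
      _ ≤ ∑ Λ ∈ LLa B T j i a, 2 ^ (i * a + 2 * a) * (SL B T Λ a).card := sum_le_sum hlow
      _ = 2 ^ (i * a + 2 * a) * ∑ Λ ∈ LLa B T j i a, (SL B T Λ a).card := by rw [mul_sum]
      _ ≤ _ := Nat.mul_le_mul_left _ hdc
  have h2 := seq_upper hO (4 * j) hN a
  have h3 : (LLa B T j i a).card * 2 ^ (2 * j * a + a * a) ≤
      2 ^ (i * a + 2 * a + (1 + 4 * j * i) + (4 * j * a + a)) := by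
    calc _ = ((LLa B T j i a).card * 2 ^ (2 * j * a)) * 2 ^ (a * a) := by rw [pow_add]; ring
      _ ≤ _ := Nat.mul_le_mul_right _ h1
      _ = 2 ^ (i * a + 2 * a) * (2 * (Nat.card U) ^ i) *
          ((univ.filter fun v : Fin a → U => Gd B T a v).card * 2 ^ (a * a)) := by ring
      _ ≤ 2 ^ (i * a + 2 * a) * (2 * (Nat.card U) ^ i) * 2 ^ (4 * j * a + a) :=
          Nat.mul_le_mul_left _ h2
      _ = _ := by
          rw [hU, ← pow_mul, pow_add _ (i * a + 2 * a + (1 + 4 * j * i)), pow_add _ (i * a + 2 * a),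
            pow_add 2 1 (4 * j * i), pow_one]
  have h4 : i * a + 2 * a + (1 + 4 * j * i) + (4 * j * a + a) ≤
      (2 * j * a + a * a) + (j * j + 5 * (i * j) + 3 * j + 1) := by
    have h5 : i * a ≤ i * j := Nat.mul_le_mul_left _ ha
    have h6 : 2 * j * a ≤ a * a + j * j := by
      zify
      nlinarith [sq_nonneg ((a : ℤ) - j)]
    nlinarith
  have h5 := h3.trans (Nat.pow_le_pow_right (by norm_num : 0 < 2) h4)
  rw [pow_add _ (2 * j * a + a * a), mul_comm (2 ^ (2 * j * a + a * a))] at h5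
  exact Nat.le_of_mul_le_mul_right h5 (by positivity)

theorem LL_card (hO : Op B T e d) (j i : ℕ) (hN : finrank F2 U = 4 * j) :
    (LL B T j i).card ≤ 2 ^ (j * j + 5 * (i * j) + 4 * j + 1) := by
  have hsub : LL B T j i ⊆ (range (j + 1)).biUnion fun a => LLa B T j i a := by
    intro Λ hΛ
    have hΛ' := hΛ
    simp only [LL, mem_filter, mem_univ, true_and] at hΛ'
    obtain ⟨h1, h2, h3⟩ := hΛ'
    have hb : ∀ k, (SL B T Λ k).Nonempty → k ≤ j := by
      rintro k ⟨v, hv⟩
      simp only [SL, mem_filter, mem_univ, true_and] at hv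
      have h4 := Submodule.finrank_mono (Fs_le h1 hv.2)
      rw [Fs_rank hO.sq hv.1] at h4
      have h5 := iso_card hO.al Λ h2 (2 * j) (by rw [hN]; ring)
      omega
    have h0 : (SL B T Λ 0).Nonempty := by
      refine ⟨fun l => l.elim0, ?_⟩
      simp only [SL, mem_filter, mem_univ, true_and]
      exact ⟨trivial, fun l => l.elim0⟩
    have h4 := Nat.findGreatest_spec (P := fun k => (SL B T Λ k).Nonempty) (Nat.zero_le j) h0
    rw [mem_biUnion]
    refine ⟨Nat.findGreatest (fun k => (SL B T Λ k).Nonempty) j, ?_, ?_⟩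
    · rw [mem_range]
      exact Nat.lt_succ_of_le (Nat.findGreatest_le j)
    · simp only [LLa, mem_filter]
      refine ⟨hΛ, h4, fun h5 => ?_⟩
      have h6 := hb _ h5
      exact Nat.findGreatest_is_greatest (P := fun k => (SL B T Λ k).Nonempty)
        (Nat.lt_succ_self _) h6 h5
  refine (card_le_card hsub).trans (card_biUnion_le.trans ?_)
  calc ∑ a ∈ range (j + 1), (LLa B T j i a).card ≤
        ∑ a ∈ range (j + 1), 2 ^ (j * j + 5 * (i * j) + 3 * j + 1) := by
        refine sum_le_sum fun a ha => ?_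
        rw [mem_range] at ha
        exact LLa_card hO j i a hN (by omega)
    _ = (j + 1) * 2 ^ (j * j + 5 * (i * j) + 3 * j + 1) := by
        rw [sum_const, card_range, smul_eq_mul]
    _ ≤ 2 ^ j * 2 ^ (j * j + 5 * (i * j) + 3 * j + 1) :=
        Nat.mul_le_mul_right _ (Nat.lt_two_pow_self (n := j))
    _ = _ := by rw [← pow_add]; congr 1; ring

end count

end Q280.MXC
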