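import Pool.Agent.Q44.MX.Stm
import Pool.Agent.Q280.MX.CntC

/-!
# Project MX, job CNT1: maximal singular subspaces which are nearly stable under one operator
-/

set_option autoImplicit false
set_option linter.unusedVariables false
set_option linter.unusedSectionVars false

namespace Q280.MXC

open Finset Module Q44.MX
open scoped Classical

section plane

variable {V : Type} [AddCommGroup V] [Module (ZMod 2) V] [Finite V]
variable {ω : V →ₗ[ZMod 2] V →ₗ[ZMod 2] ZMod 2} {X : Module.End (ZMod 2) V}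

/-- the facts on the plane -/
structure PF (ω : V →ₗ[ZMod 2] V →ₗ[ZMod 2] ZMod 2) (X : Module.End (ZMod 2) V)
    (e d : ZMod 2) : Prop where
  sq : ∀ x, X (X x) = e • X x + d • x
  adj : ∀ x y, ω (X x) y = ω x (X y) + e * ω x y
  ker : e = 0 → ∀ x, X x + d • x = 0 → ∃ u, x = X u + d • u

theorem om_symm (h : ∀ x, ω x x = 0) (x y : V) : ω x y = ω y x := by
  have h1 := h (x + y)
  simp only [map_add, LinearMap.add_apply, h, zero_add, add_zero] at h1
  have : ω x y = -ω y x := eq_neg_of_add_eq_zero_right h1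
  rw [this, CharTwo.neg_eq]

theorem exPF (hω : Pl ω) (hX : Sa ω X) (hX1 : ∀ e : ZMod 2, X ≠ e • 1) :
    ∃ e d : ZMod 2, PF ω X e d := by
  obtain ⟨v, hv0, hv1⟩ : ∃ v, X v ≠ 0 ∧ X v ≠ v := by
    by_contra hc
    push Not at hc
    rcases union_sub (U := V) ⊤ (LinearMap.ker X) (LinearMap.ker (X - 1)) (fun v _ => by
      by_cases h : X v = 0
      · exact Or.inl h
      · right
        rw [LinearMap.mem_ker, LinearMap.sub_apply, hc v h]
        exact sub_self _) with h | h
    · refine hX1 0 ?_
      rw [zero_smul]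
      ext v
      exact h (Submodule.mem_top (x := v))
    · refine hX1 1 ?_
      rw [one_smul]
      ext v
      have := h (Submodule.mem_top (x := v))
      rw [LinearMap.mem_ker, LinearMap.sub_apply, sub_eq_zero] at this
      exact this
  have hvn : v ≠ 0 := fun h => hv0 (by rw [h, map_zero])
  have key : ∀ a b : ZMod 2, a • v + b • X v = 0 → a = 0 ∧ b = 0 := by
    intro a b hab
    rcases f2_cases a with rfl | rfl <;> rcases f2_cases b with rfl | rfl
    · exact ⟨rfl, rfl⟩
    · rw [zero_smul, one_smul, zero_add] at hab; exact absurd hab hv0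
    · rw [zero_smul, one_smul, add_zero] at hab; exact absurd hab hvn
    · rw [one_smul, one_smul] at hab
      refine absurd ?_ hv1
      have h2 := add_self' (U := V) v
      have h3 : X v = (v + X v) + v := by rw [add_comm v (X v), add_assoc, h2, add_zero]
      rw [h3, hab, zero_add]
  have hli : LinearIndependent (ZMod 2) ![v, X v] := by
    rw [LinearIndependent.pair_iff]
    exact key
  have hspan := hli.span_eq_top_of_card_eq_finrank (by rw [hω.dim]; simp)
  have dec : ∀ x : V, ∃ a b : ZMod 2, x = a • v + b • X v := by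
    intro x
    have hx : x ∈ Submodule.span (ZMod 2) (Set.range ![v, X v]) := by rw [hspan]; trivial
    have hset : Set.range ![v, X v] = {v, X v} := by
      ext y
      simp [Matrix.range_cons, or_comm, eq_comm]
    rw [hset] at hx
    obtain ⟨a, b, h⟩ := Submodule.mem_span_pair.1 hx
    exact ⟨a, b, h.symm⟩
  obtain ⟨d, e, hde⟩ := dec (X (X v))
  have hsq : ∀ x, X (X x) = e • X x + d • x := by
    intro x
    obtain ⟨a, b, rfl⟩ := dec x
    simp only [map_add, map_smul, hde]
    module
  refine ⟨e, d, hsq, ?_, ?_⟩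
  · obtain ⟨e', he'⟩ := hX
    have h1 := he' v (X v)
    rw [hω.alt, hde, map_add, map_smul, map_smul, hω.alt, smul_zero, zero_add, smul_eq_mul] at h1
    have h2 : ω v (X v) = 1 := by
      rcases f2_cases (ω v (X v)) with h | h
      · exfalso
        refine hvn (hω.nd v fun y => ?_)
        obtain ⟨a, b, rfl⟩ := dec y
        rw [map_add, map_smul, map_smul, hω.alt, h, smul_zero, smul_zero, add_zero]
      · exact h
    rw [h2, mul_one, mul_one] at h1
    have h3 : e = e' := by
      have := eq_neg_of_add_eq_zero_left h1.symm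
      rwa [CharTwo.neg_eq] at this
    rw [h3]
    exact he'
  · rintro rfl x hx
    obtain ⟨a, b, rfl⟩ := dec x
    rw [zero_smul, add_zero] at hde
    have h1 : (d * b + d * a) • v + (a + d * b) • X v = 0 := by
      rw [← hx]
      simp only [map_add, map_smul, hde]
      module
    obtain ⟨_, h2⟩ := key _ _ h1
    have h3 : a = d * b := by
      have := eq_neg_of_add_eq_zero_left h2
      rwa [CharTwo.neg_eq] at this
    refine ⟨b • v, ?_⟩
    rw [h3, map_smul, smul_smul, add_comm]

theorem pwf_apply (ω : V →ₗ[ZMod 2] V →ₗ[ZMod 2] ZMod 2) (j : ℕ) (x y : Fin j → V) :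
    pwf ω j x y = ∑ i, ω (x i) (y i) := by
  unfold pwf
  simp [LinearMap.sum_apply]

theorem pwT_apply (T : V →ₗ[ZMod 2] V) (j : ℕ) (x : Fin j → V) (i : Fin j) :
    pwT T j x i = T (x i) := rfl

/-- the polar form -/
noncomputable def BB (ω : V →ₗ[ZMod 2] V →ₗ[ZMod 2] ZMod 2) (j : ℕ) :
    LinearMap.BilinForm F2 ((Fin j → V) × (Fin j → V)) :=
  LinearMap.mk₂ F2 (fun z z' => pwf ω j z.2 z'.1 + pwf ω j z'.2 z.1)
    (fun z z' w => by
      simp only [Prod.fst_add, Prod.snd_add, map_add, LinearMap.add_apply]; ring)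
    (fun c z w => by
      simp only [Prod.smul_fst, Prod.smul_snd, map_smul, LinearMap.smul_apply, smul_add])
    (fun z w w' => by
      simp only [Prod.fst_add, Prod.snd_add, map_add, LinearMap.add_apply]; ring)
    (fun c z w => by
      simp only [Prod.smul_fst, Prod.smul_snd, map_smul, LinearMap.smul_apply, smul_add])

theorem BB_apply (ω : V →ₗ[ZMod 2] V →ₗ[ZMod 2] ZMod 2) (j : ℕ)
    (z z' : (Fin j → V) × (Fin j → V)) :
    BB ω j z z' = pwf ω j z.2 z'.1 + pwf ω j z'.2 z.1 := rfl

theorem pwf_nd (hω : Pl ω) (j : ℕ) (x : Fin j → V) (h : ∀ y, pwf ω j x y = 0) : x = 0 := by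
  funext i
  refine hω.nd _ fun w => ?_
  have h1 := h (Pi.single i w)
  rw [pwf_apply, Finset.sum_eq_single i] at h1
  · simpa using h1
  · intro l _ hl
    rw [Pi.single_eq_of_ne hl, map_zero]
  · intro h; exact absurd (mem_univ _) h

theorem pwf_symm (hω : Pl ω) (j : ℕ) (x y : Fin j → V) : pwf ω j x y = pwf ω j y x := by
  rw [pwf_apply, pwf_apply]
  exact sum_congr rfl fun i _ => om_symm hω.alt _ _

theorem opU (hω : Pl ω) {e d : ZMod 2} (hP : PF ω X e d) (j : ℕ) :
    Op (BB ω j) ((pwT X j).prodMap (pwT X j)) e d where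
  al := by
    constructor
    · intro z
      rw [BB_apply, CharTwo.add_self_eq_zero]
    · intro z hz
      have h2 : z.2 = 0 := pwf_nd hω j _ fun y => by
        have := hz (y, 0)
        simpa [BB_apply] using this
      have h1 : z.1 = 0 := pwf_nd hω j _ fun y => by
        have := hz (0, y)
        rw [pwf_symm hω]
        simpa [BB_apply] using this
      exact Prod.ext h1 h2
  sq := by
    intro z
    refine Prod.ext (funext fun i => ?_) (funext fun i => ?_)
    · exact hP.sq (z.1 i)
    · exact hP.sq (z.2 i)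
  adj := by
    intro z z'
    have h : ∀ x y : Fin j → V, pwf ω j (pwT X j x) y = pwf ω j x (pwT X j y) + e * pwf ω j x y := by
      intro x y
      rw [pwf_apply, pwf_apply, pwf_apply, mul_sum, ← sum_add_distrib]
      exact sum_congr rfl fun i _ => hP.adj _ _
    rw [BB_apply, BB_apply, BB_apply]
    simp only [LinearMap.prodMap_apply]
    rw [h z.2 z'.1, h z'.2 z.1]
    linear_combination (-(e * pwf ω j z'.2 z.1)) * (CharTwo.two_eq_zero : (2 : ZMod 2) = 0)
  ker := by
    intro he z hz
    have h1 : ∀ i, X (z.1 i) + d • z.1 i = 0 := fun i => congrFun (congrArg Prod.fst hz) i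
    have h2 : ∀ i, X (z.2 i) + d • z.2 i = 0 := fun i => congrFun (congrArg Prod.snd hz) i
    choose u1 hu1 using fun i => hP.ker he _ (h1 i)
    choose u2 hu2 using fun i => hP.ker he _ (h2 i)
    exact ⟨(u1, u2), Prod.ext (funext hu1) (funext hu2)⟩

theorem t_CNT1 : S_CNT1 := by
  intro V _ _ _ ω hω X hX hX1
  obtain ⟨e, d, hP⟩ := exPF hω hX hX1
  refine ⟨18, fun j i => ?_⟩
  have hO := opU hω hP j
  have : Fintype V := Fintype.ofFinite V
  have : Fintype (Submodule (ZMod 2) ((Fin j → V) × (Fin j → V))) := Fintype.ofFinite _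
  have hfr1 : finrank (ZMod 2) (Fin j → V) = 2 * j := by
    rw [Module.finrank_pi_fintype]
    simp [hω.dim, mul_comm]
  have hfr : finrank F2 ((Fin j → V) × (Fin j → V)) = 4 * j := by
    rw [Module.finrank_prod, hfr1]; ring
  have hcV : Nat.card (Fin j → V) = 2 ^ (2 * j) := by
    rw [card_powU, hfr1]
  have hU : Nat.card ((Fin j → V) × (Fin j → V)) = 2 ^ (4 * j) := by
    rw [card_powU, hfr]
  have hsub : (univ.filter fun Λ : Submodule (ZMod 2) ((Fin j → V) × (Fin j → V)) =>
      Nst ω {X} j i Λ) ⊆ (LL (BB ω j) ((pwT X j).prodMap (pwT X j)) j i).biUnion fun E =>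
        univ.filter fun Λ : Submodule F2 ((Fin j → V) × (Fin j → V)) =>
          E ≤ Λ ∧ Nat.card Λ ≤ 2 ^ i * Nat.card E := by
    intro Λ hΛ
    rw [mem_filter] at hΛ
    obtain ⟨_, ⟨h1, h2⟩, h3⟩ := hΛ
    have h4 := h3 X rfl
    rw [mem_biUnion]
    refine ⟨core Λ (pwT X j), ?_, ?_⟩
    · simp only [LL, mem_filter, mem_univ, true_and]
      refine ⟨?_, ?_, ?_⟩
      · rintro z ⟨hz1, hz2⟩
        refine ⟨hz2, ?_⟩
        show (pwT X j).prodMap (pwT X j) ((pwT X j).prodMap (pwT X j) z) ∈ Λ
        rw [hO.sq]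
        exact Λ.add_mem (Λ.smul_mem _ hz2) (Λ.smul_mem _ hz1)
      · rintro z ⟨hz, _⟩ z' ⟨hz', _⟩
        have h5 := h1 (z + z') (Λ.add_mem hz hz')
        simp only [Prod.fst_add, Prod.snd_add, map_add, LinearMap.add_apply, h1 z hz, h1 z' hz',
          zero_add, add_zero] at h5
        rw [BB_apply, ← h5]
        ring
      · rw [← hcV]; exact h4
    · rw [mem_filter]
      exact ⟨mem_univ _, inf_le_left, by rw [h2]; exact h4⟩
  have hcard : Nat.card {Λ : Submodule (ZMod 2) ((Fin j → V) × (Fin j → V)) // Nst ω {X} j i Λ} ≤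
      2 ^ (j * j + 5 * (i * j) + 4 * j + 1) * 2 ^ (4 * (i * j)) := by
    rw [Nat.card_eq_fintype_card, Fintype.card_subtype]
    refine (card_le_card hsub).trans (card_biUnion_le.trans ?_)
    refine (sum_le_sum fun E _ => over_count E i).trans ?_
    rw [sum_const, smul_eq_mul, hU, ← pow_mul]
    refine Nat.mul_le_mul (LL_card hO j i hfr) (le_of_eq ?_)
    congr 1; ring
  rw [← pow_add] at hcard
  calc _ ≤ (2 ^ (j * j + 5 * (i * j) + 4 * j + 1 + 4 * (i * j))) ^ 2 := Nat.pow_le_pow_left hcard 2
    _ = 2 ^ ((j * j + 5 * (i * j) + 4 * j + 1 + 4 * (i * j)) * 2) := by rw [← pow_mul]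
    _ ≤ _ := Nat.pow_le_pow_right (by norm_num) (by nlinarith)

end plane

end Q280.MXC
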