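import Mathlib

/-!
# Project MX, counting: subspaces over the field with two elements
-/

set_option autoImplicit false
set_option linter.unusedVariables false
set_option linter.unusedSectionVars false

namespace Q280.MXC

open Finset Module
open scoped Classical

abbrev F2 := ZMod 2

section basic

variable {U : Type} [AddCommGroup U] [Module F2 U] [Finite U]

theorem card_pow (E : Submodule F2 U) : Nat.card E = 2 ^ finrank F2 E := by
  have := Module.natCard_eq_pow_finrank (K := F2) (V := E)
  simpa using this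

theorem card_powU : Nat.card U = 2 ^ finrank F2 U := by
  have := Module.natCard_eq_pow_finrank (K := F2) (V := U)
  simpa using this

theorem union_sub (Λ A B : Submodule F2 U) (h : ∀ v ∈ Λ, v ∈ A ∨ v ∈ B) : Λ ≤ A ∨ Λ ≤ B := by
  by_contra hc
  push Not at hc
  obtain ⟨h1, h2⟩ := hc
  obtain ⟨x, hx, hxA⟩ := Set.not_subset.1 h1
  obtain ⟨y, hy, hyB⟩ := Set.not_subset.1 h2
  have hxB : x ∈ B := (h x hx).resolve_left hxA
  have hyA : y ∈ A := (h y hy).resolve_right hyB
  rcases h (x + y) (Λ.add_mem hx hy) with h3 | h3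
  · exact hxA (by simpa using A.sub_mem h3 hyA)
  · exact hyB (by simpa using B.sub_mem h3 hxB)

theorem f2_cases (a : F2) : a = 0 ∨ a = 1 := by
  revert a; decide

theorem allowed [Fintype U] (Λ A B : Submodule F2 U) (hA : ¬ Λ ≤ A) (hB : ¬ Λ ≤ B) :
    Nat.card Λ ≤ 4 * (univ.filter fun v : U => v ∈ Λ ∧ v ∉ A ∧ v ∉ B).card := by
  obtain ⟨x, hx, hxA⟩ := Set.not_subset.1 hA
  obtain ⟨y, hy, hyB⟩ := Set.not_subset.1 hB
  obtain ⟨f, hf, hfA⟩ := A.exists_dual_map_eq_bot_of_notMem hxA inferInstance
  obtain ⟨g, hg, hgB⟩ := B.exists_dual_map_eq_bot_of_notMem hyB inferInstance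
  have hfA' : ∀ v ∈ A, f v = 0 := fun v hv => by
    have : f v ∈ A.map f := Submodule.mem_map_of_mem hv
    rwa [hfA, Submodule.mem_bot] at this
  have hgB' : ∀ v ∈ B, g v = 0 := fun v hv => by
    have : g v ∈ B.map g := Submodule.mem_map_of_mem hv
    rwa [hgB, Submodule.mem_bot] at this
  obtain ⟨w, hw, hwf, hwg⟩ : ∃ w ∈ Λ, f w ≠ 0 ∧ g w ≠ 0 := by
    by_contra hc
    push Not at hc
    rcases union_sub Λ (LinearMap.ker f) (LinearMap.ker g) (fun v hv => by
      by_cases h : f v = 0
      · exact Or.inl h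
      · exact Or.inr (hc v hv h)) with h | h
    · exact hf (h hx)
    · exact hg (h hy)
  let L : Λ →ₗ[F2] F2 × F2 := (f.prod g).domRestrict Λ
  have hrk := LinearMap.finrank_range_add_finrank_ker L
  have hr : finrank F2 (LinearMap.range L) ≤ 2 := by
    refine (Submodule.finrank_le _).trans ?_
    simp
  have hcard : Nat.card Λ ≤ 4 * Nat.card (LinearMap.ker L) := by
    have h1 := Module.natCard_eq_pow_finrank (K := F2) (V := LinearMap.ker L)
    rw [Nat.card_zmod] at h1
    rw [card_pow, h1, show (4 : ℕ) = 2 ^ 2 by norm_num, ← pow_add]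
    exact Nat.pow_le_pow_right (by norm_num) (by omega)
  refine hcard.trans (Nat.mul_le_mul_left 4 ?_)
  have := Fintype.ofFinite (LinearMap.ker L)
  rw [Nat.card_eq_fintype_card, ← Finset.card_univ]
  refine Finset.card_le_card_of_injOn (fun k => w + (k.1.1 : U)) (fun k _ => ?_) ?_
  · have hk : f k.1.1 = 0 ∧ g k.1.1 = 0 := by
      have := k.2
      rw [LinearMap.mem_ker] at this
      exact Prod.ext_iff.1 this
    simp only [coe_filter, mem_univ, true_and, Set.mem_ofPred_eq]
    refine ⟨Λ.add_mem hw k.1.2, fun h => hwf ?_, fun h => hwg ?_⟩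
    · have := hfA' _ h
      rwa [map_add, hk.1, add_zero] at this
    · have := hgB' _ h
      rwa [map_add, hk.2, add_zero] at this
  · intro k _ k' _ h
    have : (k.1.1 : U) = k'.1.1 := add_left_cancel h
    exact Subtype.ext (Subtype.ext this)

theorem span_c (W : Submodule F2 U) (c : ℕ) (h : finrank F2 W ≤ c) :
    ∃ w : Fin c → U, Submodule.span F2 (Set.range w) = W := by
  let b := Module.finBasis F2 W
  refine ⟨fun i => if h : i.1 < finrank F2 W then (b ⟨i.1, h⟩ : U) else 0, le_antisymm ?_ ?_⟩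
  · rw [Submodule.span_le]
    rintro _ ⟨i, rfl⟩
    simp only
    split_ifs with h1
    · exact (b ⟨i.1, h1⟩).2
    · exact W.zero_mem
  · intro x hx
    have h2 : (⟨x, hx⟩ : W) ∈ Submodule.span F2 (Set.range b) := by rw [b.span_eq]; trivial
    have h3 := Submodule.mem_map_of_mem (f := W.subtype) h2
    rw [Submodule.map_span] at h3
    refine Submodule.span_mono ?_ h3
    rintro _ ⟨_, ⟨i, rfl⟩, rfl⟩
    refine ⟨⟨i.1, lt_of_lt_of_le i.2 h⟩, ?_⟩
    simp only [i.2, dite_true]
    rfl

theorem over_count [Fintype U] [Fintype (Submodule F2 U)] (E : Submodule F2 U) (c : ℕ) :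
    (univ.filter fun Λ : Submodule F2 U => E ≤ Λ ∧ Nat.card Λ ≤ 2 ^ c * Nat.card E).card ≤
      (Nat.card U) ^ c := by
  have hsub : (univ.filter fun Λ : Submodule F2 U => E ≤ Λ ∧ Nat.card Λ ≤ 2 ^ c * Nat.card E) ⊆
      (univ : Finset (Fin c → U)).image fun w => E ⊔ Submodule.span F2 (Set.range w) := by
    intro Λ hΛ
    rw [mem_filter] at hΛ
    obtain ⟨_, h1, h2⟩ := hΛ
    have h3 : finrank F2 Λ ≤ c + finrank F2 E := by
      rw [card_pow, card_pow, ← pow_add] at h2
      exact (Nat.pow_le_pow_iff_right (by norm_num)).1 h2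
    obtain ⟨q, hq⟩ := (E.comap Λ.subtype).exists_isCompl
    have h4 : finrank F2 (E.comap Λ.subtype) = finrank F2 E := by
      have := (Submodule.comapSubtypeEquivOfLe h1).finrank_eq
      exact this
    have h5 := Submodule.finrank_add_eq_of_isCompl hq
    have h6 : finrank F2 (q.map Λ.subtype) = finrank F2 q :=
      Submodule.finrank_map_subtype_eq Λ q
    obtain ⟨w, hw⟩ := span_c (q.map Λ.subtype) c (by omega)
    rw [mem_image]
    refine ⟨w, mem_univ _, ?_⟩
    rw [hw]
    have h7 := congrArg (Submodule.map Λ.subtype) hq.sup_eq_top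
    rw [Submodule.map_sup, Submodule.map_comap_eq, Submodule.range_subtype,
      Submodule.map_top, Submodule.range_subtype, inf_eq_right.2 h1] at h7
    exact h7
  refine (card_le_card hsub).trans (card_image_le.trans (le_of_eq ?_))
  rw [card_univ, Fintype.card_fun, Fintype.card_fin, Nat.card_eq_fintype_card]

/-- alternating and nondegenerate -/
structure Al (B : LinearMap.BilinForm F2 U) : Prop where
  alt : ∀ z, B z z = 0
  nd : ∀ z, (∀ z', B z z' = 0) → z = 0

variable {B : LinearMap.BilinForm F2 U}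

theorem Al.symm (hB : Al B) (z z' : U) : B z z' = B z' z := by
  have h := hB.alt (z + z')
  simp only [map_add, LinearMap.add_apply, hB.alt, zero_add, add_zero] at h
  have : B z z' = -B z' z := eq_neg_of_add_eq_zero_right h
  rw [this, CharTwo.neg_eq]

theorem Al.refl (hB : Al B) : B.IsRefl := fun x y h => by rw [hB.symm, h]

theorem Al.non (hB : Al B) : B.Nondegenerate :=
  ⟨fun x h => hB.nd x h, fun x h => hB.nd x fun y => by rw [hB.symm]; exact h y⟩

theorem Al.fr (hB : Al B) (W : Submodule F2 U) :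
    finrank F2 W + finrank F2 (B.orthogonal W) = finrank F2 U := by
  have h1 := LinearMap.BilinForm.finrank_orthogonal hB.non W
  have h2 := Submodule.finrank_le W
  omega

theorem under_count [Fintype U] [Fintype (Submodule F2 U)] (hB : Al B) (G : Submodule F2 U)
    (c : ℕ) :
    (univ.filter fun Λ : Submodule F2 U => Λ ≤ G ∧ Nat.card G ≤ 2 ^ c * Nat.card Λ).card ≤
      (Nat.card U) ^ c := by
  refine le_trans ?_ (over_count (B.orthogonal G) c)
  refine card_le_card_of_injOn (fun Λ => B.orthogonal Λ) (fun Λ hΛ => ?_) ?_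
  · simp only [coe_filter, mem_univ, true_and, Set.mem_ofPred_eq] at hΛ ⊢
    refine ⟨LinearMap.BilinForm.orthogonal_le hΛ.1, ?_⟩
    have h1 := hB.fr Λ
    have h2 := hB.fr G
    have h3 : finrank F2 G ≤ c + finrank F2 Λ := by
      have := hΛ.2
      rw [card_pow, card_pow, ← pow_add] at this
      exact (Nat.pow_le_pow_iff_right (by norm_num)).1 this
    rw [card_pow, card_pow, ← pow_add]
    exact Nat.pow_le_pow_right (by norm_num) (by omega)
  · intro Λ _ Λ' _ h
    have h1 := congrArg B.orthogonal h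
    simpa only [LinearMap.BilinForm.orthogonal_orthogonal hB.non hB.refl] using h1

/-- totally isotropic -/
def Iso (B : LinearMap.BilinForm F2 U) (G : Submodule F2 U) : Prop :=
  ∀ z ∈ G, ∀ z' ∈ G, B z z' = 0

theorem iso_card (hB : Al B) (G : Submodule F2 U) (hG : Iso B G) (N : ℕ)
    (hN : finrank F2 U = 2 * N) : finrank F2 G ≤ N := by
  have h1 : G ≤ B.orthogonal G := fun z hz z' hz' => hG z' hz' z hz
  have h2 := Submodule.finrank_mono h1
  have h3 := hB.fr G
  omega

end basic

end Q280.MXC
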