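import Pool.Agent.Q280.MX.CntA

/-!
# Project MX, counting: good sequences
-/

set_option autoImplicit false
set_option linter.unusedVariables false
set_option linter.unusedSectionVars false

namespace Q280.MXC

open Finset Module
open scoped Classical

section seq

variable {U : Type} [AddCommGroup U] [Module F2 U] [Finite U]

/-- the operator: root equation, adjoint, kernel -/
structure Op (B : LinearMap.BilinForm F2 U) (T : U →ₗ[F2] U) (e d : F2) : Prop where
  al : Al B
  sq : ∀ z, T (T z) = e • T z + d • z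
  adj : ∀ z z', B (T z) z' = B z (T z') + e * B z z'
  ker : e = 0 → ∀ z, T z + d • z = 0 → ∃ u, z = T u + d • u

/-- `T + μ` -/
def Tm (T : U →ₗ[F2] U) (μ : F2) : U →ₗ[F2] U := T + μ • LinearMap.id

theorem Tm_apply (T : U →ₗ[F2] U) (μ : F2) (z : U) : Tm T μ z = T z + μ • z := rfl

/-- the span of a sequence and of its image -/
def Fs (T : U →ₗ[F2] U) {k : ℕ} (v : Fin k → U) : Submodule F2 U :=
  Submodule.span F2 (Set.range v ∪ Set.range fun l => T (v l))

/-- good sequences -/
def Gd (B : LinearMap.BilinForm F2 U) (T : U →ₗ[F2] U) : (k : ℕ) → (Fin k → U) → Prop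
  | 0, _ => True
  | k + 1, v => Gd B T k (Fin.init v) ∧ v (Fin.last k) ∈ B.orthogonal (Fs T (Fin.init v)) ∧
      T (v (Fin.last k)) ∉ Fs T (Fin.init v) ∧
      T (v (Fin.last k)) + v (Fin.last k) ∉ Fs T (Fin.init v)

variable {B : LinearMap.BilinForm F2 U} {T : U →ₗ[F2] U} {e d : F2}

theorem Fs_succ {k : ℕ} (v : Fin (k + 1) → U) :
    Fs T v = Fs T (Fin.init v) ⊔ Submodule.span F2 {v (Fin.last k), T (v (Fin.last k))} := by
  unfold Fs
  rw [← Submodule.span_union]
  congr 1
  ext x
  simp only [Set.mem_union, Set.mem_range, Set.mem_insert_iff, Set.mem_singleton_iff]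
  constructor
  · rintro (⟨l, rfl⟩ | ⟨l, rfl⟩)
    · rcases Fin.eq_castSucc_or_eq_last l with ⟨i, rfl⟩ | rfl
      · exact Or.inl (Or.inl ⟨i, rfl⟩)
      · exact Or.inr (Or.inl rfl)
    · rcases Fin.eq_castSucc_or_eq_last l with ⟨i, rfl⟩ | rfl
      · exact Or.inl (Or.inr ⟨i, rfl⟩)
      · exact Or.inr (Or.inr rfl)
  · rintro ((⟨l, rfl⟩ | ⟨l, rfl⟩) | (rfl | rfl))
    · exact Or.inl ⟨l.castSucc, rfl⟩
    · exact Or.inr ⟨l.castSucc, rfl⟩
    · exact Or.inl ⟨Fin.last k, rfl⟩
    · exact Or.inr ⟨Fin.last k, rfl⟩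

theorem Fs_mem {k : ℕ} (v : Fin k → U) (l : Fin k) : v l ∈ Fs T v ∧ T (v l) ∈ Fs T v :=
  ⟨Submodule.subset_span (Or.inl ⟨l, rfl⟩), Submodule.subset_span (Or.inr ⟨l, rfl⟩)⟩

theorem Fs_stable (hT : ∀ z, T (T z) = e • T z + d • z) {k : ℕ} (v : Fin k → U) :
    ∀ z ∈ Fs T v, T z ∈ Fs T v := by
  intro z hz
  have h : Fs T v ≤ (Fs T v).comap T := by
    refine Submodule.span_le.2 ?_
    rintro _ (⟨l, rfl⟩ | ⟨l, rfl⟩)
    · exact (Fs_mem v l).2
    · show T (T (v l)) ∈ Fs T v
      rw [hT]
      exact Submodule.add_mem _ (Submodule.smul_mem _ _ (Fs_mem v l).2)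
        (Submodule.smul_mem _ _ (Fs_mem v l).1)
  exact h hz

theorem Fs_le {Λ : Submodule F2 U} (hΛ : ∀ z ∈ Λ, T z ∈ Λ) {k : ℕ} {v : Fin k → U}
    (hv : ∀ l, v l ∈ Λ) : Fs T v ≤ Λ := by
  refine Submodule.span_le.2 ?_
  rintro _ (⟨l, rfl⟩ | ⟨l, rfl⟩)
  · exact hv l
  · exact hΛ _ (hv l)

theorem pair_rank {F : Submodule F2 U} (hF : ∀ z ∈ F, T z ∈ F) {w : U} (h1 : T w ∉ F)
    (h2 : T w + w ∉ F) : finrank F2 (F ⊔ Submodule.span F2 {w, T w} : Submodule F2 U) =
      finrank F2 F + 2 := by
  have hw : w ∉ F := fun h => h1 (hF w h)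
  have key : ∀ a b : F2, a • w + b • T w ∈ F → a = 0 ∧ b = 0 := by
    intro a b hab
    rcases f2_cases a with rfl | rfl <;> rcases f2_cases b with rfl | rfl
    · exact ⟨rfl, rfl⟩
    · rw [zero_smul, one_smul, zero_add] at hab; exact absurd hab h1
    · rw [zero_smul, one_smul, add_zero] at hab; exact absurd hab hw
    · rw [one_smul, one_smul, add_comm] at hab; exact absurd hab h2
  have hinf : F ⊓ Submodule.span F2 {w, T w} = ⊥ := by
    rw [eq_bot_iff]
    rintro x ⟨hx1, hx2⟩
    obtain ⟨a, b, rfl⟩ := Submodule.mem_span_pair.1 hx2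
    obtain ⟨rfl, rfl⟩ := key a b hx1
    simp
  have hli : LinearIndependent F2 ![w, T w] := by
    rw [LinearIndependent.pair_iff]
    intro a b hab
    exact key a b (by rw [hab]; exact F.zero_mem)
  have hP : finrank F2 (Submodule.span F2 {w, T w}) = 2 := by
    have h5 := finrank_span_eq_card hli
    have hset : Set.range ![w, T w] = {w, T w} := by
      ext x
      simp [Matrix.range_cons, or_comm, eq_comm]
    rw [hset, Fintype.card_fin] at h5
    exact h5
  have := Submodule.finrank_sup_add_finrank_inf_eq F (Submodule.span F2 {w, T w})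
  rw [hinf, finrank_bot, hP] at this
  exact this

theorem Fs_rank (hT : ∀ z, T (T z) = e • T z + d • z) {k : ℕ} {v : Fin k → U}
    (hv : Gd B T k v) : finrank F2 (Fs T v) = 2 * k := by
  induction k with
  | zero =>
    have : Fs T v = ⊥ := by
      unfold Fs
      rw [Submodule.span_eq_bot]
      rintro x (⟨l, _⟩ | ⟨l, _⟩) <;> exact l.elim0
    rw [this, finrank_bot]
  | succ k ih =>
    obtain ⟨h0, h1, h2, h3⟩ := hv
    rw [Fs_succ, pair_rank (Fs_stable hT _) h2 h3, ih h0]
    ring

theorem map_ge (hT : ∀ z, T (T z) = e • T z + d • z) {k : ℕ} {v : Fin k → U}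
    (hv : Gd B T k v) (μ : F2) : k ≤ finrank F2 ((Fs T v).map (Tm T μ)) := by
  have h1 : Fs T v ≤ Submodule.span F2 (Set.range v) ⊔ (Fs T v).map (Tm T μ) := by
    refine Submodule.span_le.2 ?_
    rintro _ (⟨l, rfl⟩ | ⟨l, rfl⟩)
    · exact Submodule.mem_sup_left (Submodule.subset_span ⟨l, rfl⟩)
    · have h2 : T (v l) = μ • v l + (Tm T μ) (v l) := by
        rw [Tm_apply, add_comm (T (v l)), ← add_assoc, ← add_smul, CharTwo.add_self_eq_zero,
          zero_smul, zero_add]
      show T (v l) ∈ _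
      rw [h2]
      exact Submodule.add_mem_sup (Submodule.smul_mem _ _ (Submodule.subset_span ⟨l, rfl⟩))
        (Submodule.mem_map_of_mem (Fs_mem v l).1)
  have h2 := Submodule.finrank_mono h1
  have h3 := Submodule.finrank_add_le_finrank_add_finrank (Submodule.span F2 (Set.range v))
    ((Fs T v).map (Tm T μ))
  have h4 : finrank F2 (Submodule.span F2 (Set.range v)) ≤ k := by
    have := finrank_range_le_card (R := F2) v
    simpa [Set.finrank] using this
  have h5 := Fs_rank hT hv
  omega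

theorem comb (hT : ∀ z, T (T z) = e • T z + d • z) (μ : F2) (z : U) :
    (Tm T (μ + e)) ((Tm T μ) z) = (d + μ * μ + e * μ) • z := by
  simp only [Tm_apply, map_add, map_smul, hT]
  have : e • T z + d • z + (μ + e) • T z + μ • (T z + (μ + e) • z) =
      (e + μ + (μ + e)) • T z + (d + (μ + e) * μ) • z := by
    module
  rw [this]
  have h2 : e + μ + (μ + e) = 0 := by
    have := CharTwo.add_self_eq_zero (e + μ)
    rw [add_comm μ e]; exact this
  rw [h2, zero_smul, zero_add]
  congr 1
  ring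

/-- all maximal good sequences have the same length -/
theorem maxlen (hT : ∀ z, T (T z) = e • T z + d • z) {k m : ℕ} {v : Fin k → U} {w : Fin m → U}
    (hv : Gd B T k v) (hw : Gd B T m w) {Λ : Submodule F2 U} (hΛ : ∀ z ∈ Λ, T z ∈ Λ)
    (hwΛ : ∀ l, w l ∈ Λ) (μ : F2) (h : ∀ z ∈ Λ, T z + μ • z ∈ Fs T v) : m ≤ k := by
  have h1 : (Fs T w).map (Tm T μ) ≤ Fs T v := by
    rintro _ ⟨z, hz, rfl⟩
    exact h z (Fs_le hΛ hwΛ hz)
  have h2 := map_ge hT hw μ
  have h3 := Fs_rank hT hv
  have h4 := Fs_rank hT hw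
  rcases f2_cases (d + μ * μ + e * μ) with hc | hc
  · -- a root
    have h5 : (Fs T w).map (Tm T μ) ≤
        (LinearMap.ker ((Tm T (μ + e)).domRestrict (Fs T v))).map
          (Fs T v).subtype := by
      rintro _ ⟨z, hz, rfl⟩
      refine ⟨⟨(Tm T μ) z, h1 ⟨z, hz, rfl⟩⟩, ?_, rfl⟩
      show (Tm T (μ + e)) ((Tm T μ) z) = 0
      rw [comb hT, hc, zero_smul]
    have h6 := Submodule.finrank_mono h5
    rw [Submodule.finrank_map_subtype_eq] at h6
    have h7 := LinearMap.finrank_range_add_finrank_ker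
      ((Tm T (μ + e)).domRestrict (Fs T v))
    have h8 : LinearMap.range ((Tm T (μ + e)).domRestrict (Fs T v)) =
        (Fs T v).map (Tm T (μ + e)) := LinearMap.range_domRestrict _ _
    rw [h8] at h7
    have h9 := map_ge hT hv (μ + e)
    omega
  · have h5 : Function.Injective (Tm T μ) := by
      rw [← LinearMap.ker_eq_bot, eq_bot_iff]
      intro z hz
      have h6 := comb hT μ z
      rw [LinearMap.mem_ker.1 hz, map_zero, hc, one_smul] at h6
      rw [Submodule.mem_bot, ← h6]
    have h6 : finrank F2 ((Fs T w).map (Tm T μ)) = finrank F2 (Fs T w) :=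
      (Submodule.equivMapOfInjective _ h5 _).finrank_eq.symm
    have h7 := Submodule.finrank_mono h1
    omega

theorem add_self' (z : U) : z + z = 0 := by
  have : z + z = ((1 : F2) + 1) • z := by rw [add_smul, one_smul]
  rw [this, CharTwo.add_self_eq_zero, zero_smul]

theorem dd (d : F2) : d * d = d := by revert d; decide

/-- the case `e = 0`: `(T + d) ^ 2 = 0` -/
theorem tt (hT : ∀ z, T (T z) = (0 : F2) • T z + d • z) (z : U) : Tm T d (Tm T d z) = 0 := by
  have h := comb hT d z
  rw [add_zero, dd, zero_mul, add_zero, CharTwo.add_self_eq_zero, zero_smul] at h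
  exact h

theorem free (hT : ∀ z, T (T z) = (0 : F2) • T z + d • z) {k : ℕ} {v : Fin k → U}
    (hv : Gd B T k v) : ∀ z ∈ Fs T v, Tm T d z = 0 → ∃ f ∈ Fs T v, z = Tm T d f := by
  induction k with
  | zero =>
    intro z hz _
    have h0 : Fs T v = ⊥ := by
      unfold Fs
      rw [Submodule.span_eq_bot]
      rintro x (⟨l, _⟩ | ⟨l, _⟩) <;> exact l.elim0
    rw [h0] at hz
    exact ⟨0, Submodule.zero_mem _, by rw [map_zero]; exact hz⟩
  | succ k ih =>
    obtain ⟨h0, h1, h2, h3⟩ := hv
    intro z hz hz0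
    rw [Fs_succ] at hz ⊢
    obtain ⟨f, hf, y, hy, rfl⟩ := Submodule.mem_sup.1 hz
    obtain ⟨a, b, rfl⟩ := Submodule.mem_span_pair.1 hy
    set w := v (Fin.last k) with hw
    -- write the element in the basis `w`, `t w`
    obtain ⟨α, β, hαβ⟩ : ∃ α β : F2, a • w + b • T w = α • w + β • Tm T d w := by
      refine ⟨a + b * d, b, ?_⟩
      rw [Tm_apply, smul_add, add_smul, smul_smul]
      have : (b * d) • w + (b * d) • w = 0 := add_self' _
      calc a • w + b • T w = a • w + b • T w + ((b * d) • w + (b * d) • w) := by rw [this, add_zero]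
        _ = _ := by abel
    rw [hαβ] at hz0 ⊢
    have ht : Tm T d (f + (α • w + β • Tm T d w)) = Tm T d f + α • Tm T d w := by
      rw [map_add, map_add, map_smul, map_smul, tt hT, smul_zero, add_zero]
    rw [ht] at hz0
    rcases f2_cases α with rfl | rfl
    · rw [zero_smul, add_zero] at hz0
      obtain ⟨f', hf', rfl⟩ := ih h0 f hf hz0
      refine ⟨f' + β • w, Submodule.add_mem_sup hf' (Submodule.smul_mem _ _
        (Submodule.subset_span (by simp))), ?_⟩
      rw [map_add, map_smul, zero_smul, zero_add]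
    · exfalso
      rw [one_smul] at hz0
      have h5 : Tm T d w ∈ Fs T (Fin.init v) := by
        have h6 : Tm T d w = Tm T d f := by
          have := add_self' (Tm T d w)
          have h7 : Tm T d w = Tm T d f + Tm T d w + Tm T d w := by rw [hz0, zero_add]
          rw [h7, add_assoc, this, add_zero]
        rw [h6, Tm_apply]
        exact Submodule.add_mem _ (Fs_stable hT _ f hf) (Submodule.smul_mem _ _ hf)
      rw [Tm_apply] at h5
      rcases f2_cases d with rfl | rfl
      · rw [zero_smul, add_zero] at h5; exact h2 h5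
      · rw [one_smul] at h5; exact h3 h5

/-- the vectors of the orthogonal on which `T` is a scalar modulo `F` -/
def GG (B : LinearMap.BilinForm F2 U) (T : U →ₗ[F2] U) (F : Submodule F2 U) (μ : F2) :
    Submodule F2 U := B.orthogonal F ⊓ F.comap (Tm T μ)

theorem GG_iso (hO : Op B T e d) {k : ℕ} {v : Fin k → U} (hv : Gd B T k v)
    (hF : Iso B (Fs T v)) (μ : F2) : Iso B (GG B T (Fs T v) μ) := by
  have hT := hO.sq
  have hsym := hO.al.symm
  rintro z ⟨hz1, hz2⟩ z' ⟨hz1', hz2'⟩
  have hz1 : ∀ f ∈ Fs T v, B f z = 0 := hz1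
  have hz1' : ∀ f ∈ Fs T v, B f z' = 0 := hz1'
  have hz2 : T z + μ • z ∈ Fs T v := hz2
  have hz2' : T z' + μ • z' ∈ Fs T v := hz2'
  have e1 : B (T z) z' = μ * B z z' := by
    have h := hz1' _ hz2
    rw [map_add, map_smul, LinearMap.add_apply, LinearMap.smul_apply, smul_eq_mul] at h
    have := eq_neg_of_add_eq_zero_left h
    rwa [CharTwo.neg_eq] at this
  have e2 : B z (T z') = μ * B z z' := by
    have h := hz1 _ hz2'
    rw [hsym, map_add, map_smul, smul_eq_mul] at h
    have := eq_neg_of_add_eq_zero_left h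
    rwa [CharTwo.neg_eq] at this
  have e3 := hO.adj z z'
  rw [e1, e2] at e3
  have e4 : e * B z z' = 0 := by
    have := congrArg (fun x => μ * B z z' + x) e3
    simp only [← add_assoc, CharTwo.add_self_eq_zero, zero_add] at this
    exact this.symm
  rcases f2_cases e with he | he
  · subst he
    by_cases hμ : μ = d
    · subst hμ
      -- decompose
      have dec : ∀ y : U, y ∈ B.orthogonal (Fs T v) → Tm T μ y ∈ Fs T v →
          ∃ f ∈ Fs T v, ∃ u : U, y = f + Tm T μ u ∧ ∀ g ∈ Fs T v, B g (Tm T μ u) = 0 := by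
        intro y hy1 hy2
        obtain ⟨f, hf, hff⟩ := free hT hv _ hy2 (tt hT y)
        have h5 : Tm T μ (y + f) = 0 := by rw [map_add, hff, add_self']
        obtain ⟨u, hu⟩ := hO.ker rfl (y + f) h5
        refine ⟨f, hf, u, ?_, fun g hg => ?_⟩
        · rw [Tm_apply, ← hu, add_comm y f, ← add_assoc, add_self', zero_add]
        · rw [Tm_apply, ← hu, map_add, hy1 g hg, hF g hg f hf, add_zero]
      obtain ⟨f, hf, u, hu, hu2⟩ := dec z hz1 hz2
      obtain ⟨f', hf', u', hu', hu2'⟩ := dec z' hz1' hz2'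
      have e5 : B (Tm T μ u) (Tm T μ u') = 0 := by
        have h6 : ∀ x y, B (Tm T μ x) y = B x (Tm T μ y) := by
          intro x y
          rw [Tm_apply, Tm_apply, map_add, map_smul, LinearMap.add_apply, LinearMap.smul_apply,
            hO.adj, zero_mul, add_zero, map_add, map_smul]
        rw [h6, tt hT, map_zero]
      have e6 : B (f + Tm T μ u) (f' + Tm T μ u') = B f f' + B f (Tm T μ u') + B (Tm T μ u) f' +
          B (Tm T μ u) (Tm T μ u') := by
        simp only [map_add, LinearMap.add_apply]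
        ring
      rw [hu, hu', e6, hF f hf f' hf', hu2' f hf, hsym (Tm T μ u) f', hu2 f' hf', e5]
      simp
    · -- then `G = F`
      have hμ' : μ = d + 1 := by
        rcases f2_cases μ with rfl | rfl <;> rcases f2_cases d with rfl | rfl
        · exact absurd rfl hμ
        · decide
        · decide
        · exact absurd rfl hμ
      have hin : ∀ y : U, T y + μ • y ∈ Fs T v → y ∈ Fs T v := by
        intro y hy
        have h5 : y = Tm T μ (Tm T μ y) := by
          have h6 := comb hT μ y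
          rw [add_zero, zero_mul, add_zero, dd, hμ', ← add_assoc, CharTwo.add_self_eq_zero,
            zero_add, one_smul] at h6
          rw [← hμ'] at h6
          exact h6.symm
        rw [h5, Tm_apply]
        exact Submodule.add_mem _ (Fs_stable hT _ _ hy) (Submodule.smul_mem _ _ hy)
      exact hF z (hin z hz2) z' (hin z' hz2')
  · rw [he, one_mul] at e4
    exact e4

end seq

end Q280.MXC
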