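import Pool.Agent.Q44.MX.StmB

/-!
# Project MX: the upper bound for blocks, the classification of the sets of labels
-/

set_option autoImplicit false
set_option linter.unusedVariables false
set_option linter.unusedSectionVars false

namespace Q280.MXU

open Finset Module
open Q44.MX
open Q44.JQ (Dj)
open scoped Classical

section alg

variable {s V : Type} [Fintype s] [AddCommGroup V] [Module (ZMod 2) V] [Finite V] (D : Dj s V)

theorem end_noncomm (hV : finrank (ZMod 2) V = 2) :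
    ∃ f g : Module.End (ZMod 2) V, f * g ≠ g * f := by
  have b := Module.finBasisOfFinrankEq (ZMod 2) V hV
  refine ⟨b.constr (ZMod 2) ![b 1, 0], b.constr (ZMod 2) ![0, b 0], fun h => ?_⟩
  have h1 := congrArg (fun f : Module.End (ZMod 2) V => f (b 1)) h
  simp only [Module.End.mul_apply, Basis.constr_basis] at h1
  simp at h1
  exact b.ne_zero 1 h1

theorem not_comm (hV : finrank (ZMod 2) V = 2)
    (hg : Algebra.adjoin (ZMod 2) (Set.range fun φ : s → ZMod 2 => (D.T φ : Module.End (ZMod 2) V)) = ⊤) :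
    ∃ φ₁ φ₂, (D.T φ₁ : Module.End (ZMod 2) V) * D.T φ₂ ≠ (D.T φ₂ : Module.End (ZMod 2) V) * D.T φ₁ := by
  by_contra hc
  push Not at hc
  obtain ⟨f, g, hfg⟩ := end_noncomm (V := V) hV
  have h1 : ∀ φ, ∀ g : Module.End (ZMod 2) V, Commute (D.T φ : Module.End (ZMod 2) V) g := by
    intro φ g
    refine Algebra.commute_of_mem_adjoin_of_forall_mem_commute (R := ZMod 2)
      (s := Set.range fun φ : s → ZMod 2 => (D.T φ : Module.End (ZMod 2) V)) (by rw [hg]; trivial) ?_
    rintro _ ⟨φ', rfl⟩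
    exact hc φ φ'
  apply hfg
  have h2 : Commute f g := by
    refine Algebra.commute_of_mem_adjoin_of_forall_mem_commute (R := ZMod 2)
      (s := Set.range fun φ : s → ZMod 2 => (D.T φ : Module.End (ZMod 2) V)) (by rw [hg]; trivial) ?_
    rintro _ ⟨φ', rfl⟩
    exact (h1 φ' f).symm
  exact h2

/-- the scalar labels -/
theorem four (hV : finrank (ZMod 2) V = 2)
    (hg : Algebra.adjoin (ZMod 2) (Set.range fun φ : s → ZMod 2 => (D.T φ : Module.End (ZMod 2) V)) = ⊤)
    (𝒮 : Finset (s → ZMod 2)) (h : ∀ φ ∈ 𝒮, ∃ e : ZMod 2, (D.T φ : Module.End (ZMod 2) V) = e • 1) :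
    4 * 𝒮.card ≤ 2 ^ Fintype.card s := by
  obtain ⟨φ₁, φ₂, h12⟩ := not_comm D hV hg
  have hinj : Set.InjOn (fun x : (s → ZMod 2) × ZMod 2 × ZMod 2 => x.1 + x.2.1 • φ₁ + x.2.2 • φ₂)
      (𝒮 ×ˢ (univ : Finset (ZMod 2 × ZMod 2)) : Finset ((s → ZMod 2) × ZMod 2 × ZMod 2)) := by
    rintro ⟨x, a, b⟩ hx ⟨x', a', b'⟩ hx' hE
    simp only [coe_product, coe_univ, Set.mem_prod, mem_coe, Set.mem_univ, and_true] at hx hx'
    simp only at hE
    obtain ⟨e, he⟩ := h x hx
    obtain ⟨e', he'⟩ := h x' hx'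
    have hT := congrArg (fun φ => (D.T φ : Module.End (ZMod 2) V)) hE
    simp only [map_add, map_smul] at hT
    rw [he, he'] at hT
    have c1 := congrArg (fun f : Module.End (ZMod 2) V => f * D.T φ₂ - (D.T φ₂ : Module.End (ZMod 2) V) * f) hT
    have c2 := congrArg (fun f : Module.End (ZMod 2) V => f * D.T φ₁ - (D.T φ₁ : Module.End (ZMod 2) V) * f) hT
    simp only [add_mul, mul_add, smul_mul_assoc, mul_smul_comm, one_mul, mul_one] at c1 c2
    have d1 : (a - a') • ((D.T φ₁ : Module.End (ZMod 2) V) * D.T φ₂ - (D.T φ₂ : Module.End (ZMod 2) V) * D.T φ₁) = 0 := by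
      rw [sub_smul, smul_sub, smul_sub]
      have := sub_eq_zero.2 c1
      rw [← this]
      abel
    have d2 : (b - b') • ((D.T φ₁ : Module.End (ZMod 2) V) * D.T φ₂ - (D.T φ₂ : Module.End (ZMod 2) V) * D.T φ₁) = 0 := by
      rw [sub_smul, smul_sub, smul_sub]
      have := sub_eq_zero.2 c2
      rw [← neg_eq_zero, ← this]
      abel
    have hne := sub_ne_zero.2 h12
    have e1 : a = a' := sub_eq_zero.1 ((smul_eq_zero.1 d1).resolve_right hne)
    have e2 : b = b' := sub_eq_zero.1 ((smul_eq_zero.1 d2).resolve_right hne)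
    subst e1 e2
    have e3 : x = x' := by simpa using hE
    rw [e3]
  have := card_le_card_of_injOn (s := 𝒮 ×ˢ (univ : Finset (ZMod 2 × ZMod 2))) (t := (univ : Finset (s → ZMod 2)))
    _ (fun _ _ => mem_univ _) hinj
  rw [card_product, card_univ, card_univ, Fintype.card_prod, ZMod.card, Fintype.card_fun, ZMod.card] at this
  omega

theorem half (hg : Algebra.adjoin (ZMod 2) (Set.range fun φ : s → ZMod 2 => (D.T φ : Module.End (ZMod 2) V)) = ⊤)
    (𝒮 : Finset (s → ZMod 2))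
    (h : Algebra.adjoin (ZMod 2) ((fun φ : s → ZMod 2 => (D.T φ : Module.End (ZMod 2) V)) '' 𝒮) ≠ ⊤) :
    2 * 𝒮.card ≤ 2 ^ Fintype.card s := by
  set Al := Algebra.adjoin (ZMod 2) ((fun φ : s → ZMod 2 => (D.T φ : Module.End (ZMod 2) V)) '' 𝒮) with hAl
  have h1 : ∃ φ₀, (D.T φ₀ : Module.End (ZMod 2) V) ∉ Al := by
    by_contra hc
    push Not at hc
    apply h
    rw [eq_top_iff, ← hg]
    refine Algebra.adjoin_le ?_
    rintro _ ⟨φ, rfl⟩
    exact hc φ
  obtain ⟨φ₀, h0⟩ := h1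
  have hm : ∀ φ ∈ 𝒮, (D.T φ : Module.End (ZMod 2) V) ∈ Al := fun φ hφ =>
    Algebra.subset_adjoin ⟨φ, hφ, rfl⟩
  have hd : Disjoint 𝒮 (𝒮.image fun φ => φ + φ₀) := by
    rw [disjoint_left]
    intro φ hφ hφ'
    obtain ⟨ψ, hψ, rfl⟩ := mem_image.1 hφ'
    apply h0
    have := Al.sub_mem (hm _ hφ) (hm _ hψ)
    rw [map_add] at this
    simpa using this
  have h2 := card_le_univ (𝒮 ∪ 𝒮.image fun φ => φ + φ₀)
  rw [card_union_of_disjoint hd, card_image_of_injective _ (add_left_injective φ₀), Fintype.card_fun, ZMod.card] at h2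
  omega

/-- the three types -/
theorem classify (hV : finrank (ZMod 2) V = 2)
    (hg : Algebra.adjoin (ZMod 2) (Set.range fun φ : s → ZMod 2 => (D.T φ : Module.End (ZMod 2) V)) = ⊤)
    (𝒮 : Finset (s → ZMod 2)) : ∃ (c : ℕ) (S : Set (Module.End (ZMod 2) V)), Ty c S ∧
      (c = 1 ∨ c = 2 ∨ c = 4) ∧ (∀ X ∈ S, ∃ φ ∈ 𝒮, X = D.T φ) ∧ c * 𝒮.card ≤ 2 ^ Fintype.card s := by
  by_cases h1 : ∀ φ ∈ 𝒮, ∃ e : ZMod 2, (D.T φ : Module.End (ZMod 2) V) = e • 1
  · exact ⟨4, ∅, Or.inl rfl, Or.inr (Or.inr rfl), by simp, four D hV hg 𝒮 h1⟩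
  · push Not at h1
    obtain ⟨φ, hφ, hne⟩ := h1
    by_cases h2 : Algebra.adjoin (ZMod 2) ((fun φ : s → ZMod 2 => (D.T φ : Module.End (ZMod 2) V)) '' 𝒮) = ⊤
    · refine ⟨1, (fun φ : s → ZMod 2 => (D.T φ : Module.End (ZMod 2) V)) '' 𝒮, Or.inr (Or.inr ⟨rfl, h2⟩),
        Or.inl rfl, ?_, ?_⟩
      · rintro X ⟨φ, hφ, rfl⟩
        exact ⟨φ, hφ, rfl⟩
      · have := card_le_univ 𝒮
        rw [Fintype.card_fun, ZMod.card] at this
        omega
    · refine ⟨2, (fun φ : s → ZMod 2 => (D.T φ : Module.End (ZMod 2) V)) '' 𝒮,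
        Or.inr (Or.inl ⟨rfl, D.T φ, ⟨φ, hφ, rfl⟩, hne⟩), Or.inr (Or.inl rfl), ?_, half D hg 𝒮 h2⟩
      rintro X ⟨φ, hφ, rfl⟩
      exact ⟨φ, hφ, rfl⟩

end alg

/-! ### counting -/

/-- the number of the small subsets -/
theorem card_small {ι : Type} [Fintype ι] (M : ℕ) :
    (univ.filter fun T : Finset ι => T.card ≤ M).card ≤ (Fintype.card ι + 1) ^ M := by
  have h1 : (univ.filter fun T : Finset ι => T.card ≤ M) ⊆
      (univ : Finset (Fin M → Option ι)).image fun g => univ.filter fun i => ∃ j, g j = some i := by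
    intro T hT
    have hT' := (mem_filter.1 hT).2
    rw [mem_image]
    let e := T.equivFin
    refine ⟨fun j => if h : (j : ℕ) < T.card then some (e.symm ⟨j, h⟩ : ι) else none, mem_univ _, ?_⟩
    ext i
    rw [mem_filter]
    constructor
    · rintro ⟨_, j, hj⟩
      beta_reduce at hj
      split_ifs at hj with h
      rw [← Option.some_injective _ hj]
      exact (e.symm ⟨j, h⟩).2
    · intro hi
      refine ⟨mem_univ _, ⟨(e ⟨i, hi⟩ : ℕ), (e ⟨i, hi⟩).2.trans_le hT'⟩, ?_⟩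
      have h2 : ((e ⟨i, hi⟩ : Fin T.card) : ℕ) < T.card := (e ⟨i, hi⟩).2
      simp
  refine (card_le_card h1).trans (card_image_le.trans ?_)
  rw [card_univ, Fintype.card_fun, Fintype.card_option, Fintype.card_fin]

/-- the number of the supports with few elements outside `G` -/
theorem card_sig {U ι : Type} [Fintype U] [Fintype ι] (G : ι → Prop) (M : ℕ) :
    (univ.filter fun σ : U ⊕ ι → ZMod 2 => (univ.filter fun i => σ (Sum.inr i) ≠ 0 ∧ ¬ G i).card ≤ M).card ≤
      2 ^ Fintype.card U * 2 ^ (univ.filter G).card * (Fintype.card ι + 1) ^ M := by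
  have h1 : (univ.filter fun σ : U ⊕ ι → ZMod 2 =>
      (univ.filter fun i => σ (Sum.inr i) ≠ 0 ∧ ¬ G i).card ≤ M).card ≤
      ((univ : Finset ((U → ZMod 2) × ({i // G i} → ZMod 2))) ×ˢ
        (univ.filter fun T : Finset ι => T.card ≤ M)).card := by
    refine card_le_card_of_injOn (fun σ => ((fun u => σ (Sum.inl u), fun i => σ (Sum.inr i.1)),
      univ.filter fun i => σ (Sum.inr i) ≠ 0 ∧ ¬ G i)) ?_ ?_
    · intro σ hσ
      simp only [coe_filter, mem_univ, true_and, Set.mem_ofPred_eq] at hσ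
      simp only [coe_product, coe_univ, Set.mem_prod, Set.mem_univ, true_and, coe_filter, mem_univ,
        Set.mem_ofPred_eq]
      exact hσ
    · intro σ _ σ' _ h
      simp only [Prod.mk.injEq] at h
      obtain ⟨⟨h1, h2⟩, h3⟩ := h
      funext x
      rcases x with u | i
      · exact congrFun h1 u
      · by_cases hG : G i
        · exact congrFun h2 ⟨i, hG⟩
        · have h4 : σ (Sum.inr i) ≠ 0 ↔ σ' (Sum.inr i) ≠ 0 := by
            have := Finset.ext_iff.1 h3 i
            simpa [hG] using this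
          have hz : ∀ x y : ZMod 2, (x ≠ 0 ↔ y ≠ 0) → x = y := by decide
          exact hz _ _ h4
  refine h1.trans ?_
  rw [card_product, card_univ, Fintype.card_prod, Fintype.card_fun, Fintype.card_fun, ZMod.card,
    Fintype.card_subtype]
  exact Nat.mul_le_mul_left _ (card_small M)

end Q280.MXU
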